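import Pool.Agent.H548.LU.Cls

/-! Project LU: the stages from the parts. -/

namespace Pool.Agent.H548.LU

open Finset Classical

theorem mem_inn {k d N : ℕ} {X : Finset (Ed k d N)} {W : Finset (Vx k d N)} {e : Ed k d N} :
    e ∈ inn X W ↔ e ∈ X ∧ Sum.inl e.1 ∈ W ∧ Sum.inr e.2 ∈ W := by
  simp [inn]

theorem ncard_gr_induce {k d N : ℕ} (X : Finset (Ed k d N)) (W : Finset (Vx k d N)) :
    ((gr X).induce (W : Set (Vx k d N))).edgeSet.ncard = (inn X W).card := by
  rw [← Set.ncard_coe_finset]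
  symm
  refine Set.ncard_congr (fun e he => s(⟨Sum.inl e.1, ?_⟩, ⟨Sum.inr e.2, ?_⟩)) ?_ ?_ ?_
  · have := (mem_inn.mp (by exact_mod_cast he)).2.1
    exact_mod_cast this
  · have := (mem_inn.mp (by exact_mod_cast he)).2.2
    exact_mod_cast this
  · intro e he
    have h1 := mem_inn.mp (by exact_mod_cast he)
    show (gr X).Adj _ _
    exact Or.inl ⟨e, h1.1, rfl, rfl⟩
  · intro e e' he he' h
    rw [Sym2.eq_iff] at h
    rcases h with ⟨h1, h2⟩ | ⟨h1, h2⟩
    · have h3 := congrArg Subtype.val h1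
      have h4 := congrArg Subtype.val h2
      simp only [Sum.inl.injEq, Sum.inr.injEq] at h3 h4
      exact Prod.ext h3 h4
    · have h3 := congrArg Subtype.val h1
      simp at h3
  · intro s hs
    induction s using Sym2.ind with
    | _ x y =>
      have hxy : (gr X).Adj x.1 y.1 := hs
      rcases hxy with ⟨e, he, h1, h2⟩ | ⟨e, he, h1, h2⟩
      · refine ⟨e, ?_, ?_⟩
        · have : e ∈ inn X W := by
            rw [mem_inn]
            refine ⟨he, ?_, ?_⟩
            · rw [← h1]; exact_mod_cast x.2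
            · rw [← h2]; exact_mod_cast y.2
          exact_mod_cast this
        · rw [Sym2.eq_iff]
          left
          exact ⟨Subtype.ext h1.symm, Subtype.ext h2.symm⟩
      · refine ⟨e, ?_, ?_⟩
        · have : e ∈ inn X W := by
            rw [mem_inn]
            refine ⟨he, ?_, ?_⟩
            · rw [← h1]; exact_mod_cast y.2
            · rw [← h2]; exact_mod_cast x.2
          exact_mod_cast this
        · rw [Sym2.eq_iff]
          right
          exact ⟨Subtype.ext h1.symm, Subtype.ext h2.symm⟩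

theorem gr_col {k d N : ℕ} (X : Finset (Ed k d N)) : (gr X).Colorable 2 := by
  have c : (gr X).Coloring Bool := SimpleGraph.Coloring.mk (fun v => v.isLeft) (by
    rintro u v (⟨e, _, h1, h2⟩ | ⟨e, _, h1, h2⟩) <;> simp [h1, h2])
  simpa using c.colorable

theorem gr_mono {k d N : ℕ} {S X : Finset (Ed k d N)} (h : S ⊆ X) : gr S ≤ gr X := by
  intro u v huv
  rcases huv with ⟨e, he, h1⟩ | ⟨e, he, h1⟩
  · exact Or.inl ⟨e, h he, h1⟩
  · exact Or.inr ⟨e, h he, h1⟩

theorem special_sub {k d N : ℕ} {X : Finset (Ed k d N)}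
    {β : Finset (Vx k d N) → Ed k d N → Bool}
    {lev : Finset (Vx k d N) → Fin d} {κ : ℝ} {W : Finset (Vx k d N)} {S : Finset (Ed k d N)}
    (h : Special X β lev κ W S) : S ⊆ inn X W := by
  rcases h with ⟨_, h⟩ | h <;> rw [h] <;> exact filter_subset _ _

theorem mem_Wset_inl {k d N : ℕ} (j : Fin d) (i : Fin k) (a : Lab k d N) :
    (Sum.inl a : Vx k d N) ∈ Wset j i ↔ ((a.1 j).1 = i ∨ (a.1 j).2 = i) := by
  unfold Wset
  rw [mem_filter]
  constructor
  · rintro ⟨_, ⟨a', h1, h2⟩ | ⟨b, h1, _⟩⟩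
    · rw [Sum.inl.injEq] at h1; rw [h1]; exact h2
    · cases h1
  · intro h
    exact ⟨mem_univ _, Or.inl ⟨a, rfl, h⟩⟩

theorem mem_Wset_inr {k d N : ℕ} (j : Fin d) (i : Fin k) (b : Lab k d N) :
    (Sum.inr b : Vx k d N) ∈ Wset j i ↔ zc b j = i := by
  unfold Wset
  rw [mem_filter]
  constructor
  · rintro ⟨_, ⟨a', h1, h2⟩ | ⟨b', h1, h2⟩⟩
    · cases h1
    · rw [Sum.inr.injEq] at h1; rw [h1]; exact h2
  · intro h
    exact ⟨mem_univ _, Or.inr ⟨b, rfl, h⟩⟩

theorem stage_pos (hX : StmtX) (hB : StmtBeta) (hR : StmtRobust) (hF : StmtFinal)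
    (t m0 : ℕ) (ht : 0 < t) : Nonempty (Stage t m0) := by
  have htR : (0 : ℝ) < t := by exact_mod_cast ht
  have ht1 : (1 : ℝ) ≤ t := by exact_mod_cast ht
  set η : ℝ := 1 / 2 ^ (t + 8) with hη
  have hη0 : 0 < η := by positivity
  have hη1 : η ≤ 1 := by
    rw [hη, div_le_one (by positivity)]
    exact one_le_pow₀ (by norm_num)
  set δ : ℝ := η / (8 * t) with hδ
  have hδ0 : 0 < δ := by positivity
  set τ : ℝ := η / (8 * t ^ 2) with hτ
  have hτ0 : 0 < τ := by positivity
  have hτ1 : τ ≤ 1 := by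
    rw [hτ, div_le_one (by positivity)]
    nlinarith
  obtain ⟨d, hd, ρ₂, hρ₂, hrob⟩ := hR δ τ hδ0 hτ0 hτ1
  set ρ₁ : ℝ := min (ρ₂ / 16) (η / (8 * t)) with hρ₁
  have hρ₁0 : 0 < ρ₁ := lt_min (by positivity) (by positivity)
  have hρ₁2 : 16 * ρ₁ ≤ ρ₂ := by
    have := min_le_left (ρ₂ / 16) (η / (8 * t))
    rw [← hρ₁] at this
    linarith
  have hρ₁η : ρ₁ ≤ η / (8 * t) := min_le_right _ _
  obtain ⟨ε, hε, L, hbeta⟩ := hB t d ρ₁ ρ₂ ht hρ₁0 hρ₁2
  obtain ⟨N, hN, D, hLD, hD0, hlog, X, hGX⟩ := hX (2 * d) d m0 ρ₁ ε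
    (max L (max ((m0 : ℝ) / δ) (2 / δ))) hd le_rfl hρ₁0 hε
  have hcard : 0 < Fintype.card (Vx (2 * d) d N) := by
    rw [Fintype.card_pos_iff]
    have h0 : 0 < 2 * d := by omega
    exact ⟨Sum.inl (fun _ => (⟨0, h0⟩, ⟨0, h0⟩), ⟨0, hN⟩)⟩
  obtain ⟨β, hβ⟩ := hbeta (2 * d) N D X hcard (le_trans (le_max_left _ _) hLD) hD0 hlog hGX.many
  have hlev : ∀ U : Finset (Vx (2 * d) d N), ∃ j : Fin d,
      δ * D * (U.card : ℝ) < ((inn X U).card : ℝ) → ¬ Bad X U j D ρ₂ τ := by
    intro U
    by_cases h : δ * D * (U.card : ℝ) < ((inn X U).card : ℝ)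
    · obtain ⟨j, hj⟩ := hrob (2 * d) N D X hD0 hGX.toDegX U h
      exact ⟨j, fun _ => hj⟩
    · exact ⟨⟨0, hd⟩, fun h' => absurd h' h⟩
  choose lev hlev using hlev
  have hsum : (t : ℝ) * δ + t * ρ₁ + (t : ℝ) ^ 2 * τ < 1 / 2 ^ (t + 8) := by
    have h1 : (t : ℝ) * δ = η / 8 := by rw [hδ]; field_simp
    have h2 : (t : ℝ) ^ 2 * τ = η / 8 := by rw [hτ]; field_simp
    have h3 : (t : ℝ) * ρ₁ ≤ η / 8 := by
      calc (t : ℝ) * ρ₁ ≤ t * (η / (8 * t)) := mul_le_mul_of_nonneg_left hρ₁η htR.le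
        _ = η / 8 := by field_simp
    rw [h1, h2, ← hη]
    linarith
  have hfin := hF t (2 * d) d N m0 D ρ₁ ρ₂ δ τ X β lev hcard hD0 hρ₁0.le hρ₂.le hδ0.le hτ0.le
    hGX hβ hlev hsum
  have hm0 : (m0 : ℝ) ≤ δ * D := by
    have h1 : (m0 : ℝ) / δ ≤ D :=
      le_trans (le_trans (le_max_left _ _) (le_max_right _ _)) hLD
    rw [div_le_iff₀ hδ0] at h1
    linarith
  have h20 : (2 : ℝ) ≤ δ * D := by
    have h1 : (2 : ℝ) / δ ≤ D :=
      le_trans (le_trans (le_max_right _ _) (le_max_right _ _)) hLD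
    rw [div_le_iff₀ hδ0] at h1
    linarith
  refine ⟨{
    V := Vx (2 * d) d N
    fin := inferInstance
    X := gr X
    κ := δ * D
    Sp := fun W S' => ∃ S, Special X β lev (δ * D) W S ∧ S' = gr S
    col := gr_col X
    m0_le := hm0
    two_le := h20
    small := ?_
    sp_le := ?_
    cover := ?_
    lower := ?_ }⟩
  · intro Z hZ
    rw [ncard_gr_induce]
    exact hGX.small Z hZ
  · rintro W S' ⟨S, hS, rfl⟩
    exact gr_mono (fun e he => (mem_inn.mp (special_sub hS he)).1)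
  · intro U hU
    rw [ncard_gr_induce] at hU
    let j := lev U
    refine ⟨2 * d + 1, Fin.cases U (fun i => U ∩ Wset j i),
      Fin.cases (gr ((inn X U).filter fun e => β (U ∩ Wset j (zc e.2 j)) e = false))
        (fun i => gr ((inn X (U ∩ Wset j i)).filter fun e => β (U ∩ Wset j i) e = true)),
      ?_, ?_, ?_, ?_⟩
    · intro i
      refine Fin.cases ?_ (fun i => ?_) i
      · exact ⟨_, Or.inl ⟨hU, rfl⟩, rfl⟩
      · exact ⟨_, Or.inr rfl, rfl⟩
    · intro i
      refine Fin.cases ?_ (fun i => ?_) i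
      · exact Finset.Subset.refl _
      · exact Finset.inter_subset_left
    · intro u hu v hv huv
      have key : ∀ e ∈ X, Sum.inl e.1 ∈ U → Sum.inr e.2 ∈ U →
          (β (U ∩ Wset j (zc e.2 j)) e = false ∧
            e ∈ ((inn X U).filter fun e => β (U ∩ Wset j (zc e.2 j)) e = false)) ∨
          (Sum.inl e.1 ∈ U ∩ Wset j (zc e.2 j) ∧ Sum.inr e.2 ∈ U ∩ Wset j (zc e.2 j) ∧
            e ∈ ((inn X (U ∩ Wset j (zc e.2 j))).filter
              fun e' => β (U ∩ Wset j (zc e.2 j)) e' = true)) := by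
        intro e he h1 h2
        by_cases hb : β (U ∩ Wset j (zc e.2 j)) e = false
        · left
          refine ⟨hb, ?_⟩
          rw [mem_filter, mem_inn]
          exact ⟨⟨he, h1, h2⟩, hb⟩
        · right
          have hPot := hGX.sub he
          simp only [Pot, mem_filter, mem_univ, true_and] at hPot
          have ha : (Sum.inl e.1 : Vx (2 * d) d N) ∈ U ∩ Wset j (zc e.2 j) := by
            rw [mem_inter, mem_Wset_inl]
            refine ⟨h1, ?_⟩
            rcases hPot j with h | h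
            · exact Or.inl h.symm
            · exact Or.inr h.symm
          have hb' : (Sum.inr e.2 : Vx (2 * d) d N) ∈ U ∩ Wset j (zc e.2 j) := by
            rw [mem_inter, mem_Wset_inr]
            exact ⟨h2, rfl⟩
          refine ⟨ha, hb', ?_⟩
          rw [mem_filter, mem_inn]
          refine ⟨⟨he, ha, hb'⟩, ?_⟩
          simpa using hb
      rcases huv with ⟨e, he, h1, h2⟩ | ⟨e, he, h1, h2⟩
      · rcases key e he (h1 ▸ hu) (h2 ▸ hv) with ⟨_, h3⟩ | ⟨h3, h4, h5⟩
        · exact ⟨0, hu, hv, Or.inl ⟨e, h3, h1, h2⟩⟩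
        · refine ⟨(zc e.2 j).succ, ?_, ?_, ?_⟩
          · simp only [Fin.cases_succ]; rw [h1]; exact h3
          · simp only [Fin.cases_succ]; rw [h2]; exact h4
          · simp only [Fin.cases_succ]
            exact Or.inl ⟨e, h5, h1, h2⟩
      · rcases key e he (h1 ▸ hv) (h2 ▸ hu) with ⟨_, h3⟩ | ⟨h3, h4, h5⟩
        · exact ⟨0, hu, hv, Or.inr ⟨e, h3, h1, h2⟩⟩
        · refine ⟨(zc e.2 j).succ, ?_, ?_, ?_⟩
          · simp only [Fin.cases_succ]; rw [h2]; exact h4
          · simp only [Fin.cases_succ]; rw [h1]; exact h3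
          · simp only [Fin.cases_succ]
            exact Or.inr ⟨e, h5, h1, h2⟩
    · intro v
      have hsub : ∃ x y : Fin (2 * d + 1), ((univ : Finset (Fin (2 * d + 1))).filter fun i =>
          v ∈ (Fin.cases U (fun i => U ∩ Wset j i) i : Finset (Vx (2 * d) d N))) ⊆
            {0, x, y} := by
        rcases v with a | b
        · refine ⟨((a.1 j).1).succ, ((a.1 j).2).succ, ?_⟩
          intro i hi
          rw [mem_filter] at hi
          revert hi
          refine Fin.cases ?_ (fun i => ?_) i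
          · intro _; simp
          · intro hi
            simp only [Fin.cases_succ, mem_inter, mem_Wset_inl] at hi
            rcases hi.2.2 with h | h
            · rw [h]; simp
            · rw [h]; simp
        · refine ⟨(zc b j).succ, 0, ?_⟩
          intro i hi
          rw [mem_filter] at hi
          revert hi
          refine Fin.cases ?_ (fun i => ?_) i
          · intro _; simp
          · intro hi
            simp only [Fin.cases_succ, mem_inter, mem_Wset_inr] at hi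
            rw [hi.2.2]; simp
      obtain ⟨x, y, hxy⟩ := hsub
      refine le_trans (card_le_card (t := {0, x, y}) ?_) card_le_three
      intro i hi
      apply hxy
      simpa using hi
  · intro Ly hLy
    obtain ⟨e, he, hno⟩ := hfin Ly (by
      intro ℓ i
      rcases hLy ℓ i with h | ⟨W, S', ⟨S, hS, rfl⟩, h⟩
      · exact Or.inl h
      · exact Or.inr ⟨W, S, hS, h⟩)
    exact ⟨Sum.inl e.1, Sum.inr e.2, Or.inl ⟨e, he, rfl, rfl⟩, fun ℓ => (hno ℓ).1⟩

theorem stage_all (hX : StmtX) (hB : StmtBeta) (hR : StmtRobust) (hF : StmtFinal) :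
    ∀ t m0, Nonempty (Stage t m0) := by
  intro t m0
  rcases Nat.eq_zero_or_pos t with ht | ht
  · subst ht
    obtain ⟨s⟩ := stage_pos hX hB hR hF 1 m0 one_pos
    refine ⟨{ V := s.V, fin := s.fin, X := s.X, κ := s.κ, Sp := s.Sp, col := s.col
              m0_le := s.m0_le, two_le := s.two_le, small := s.small, sp_le := s.sp_le
              cover := s.cover, lower := ?_ }⟩
    intro Ly _
    obtain ⟨u, v, huv, _⟩ := s.lower (fun _ =>
      { r := 0
        n := fun i => i.elim0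
        Z := fun i => i.elim0
        φ := fun i => i.elim0
        hom := fun i => i.elim0
        inj := by rintro ⟨i, _⟩; exact i.elim0 }) (fun _ i => i.elim0)
    exact ⟨u, v, huv, fun ℓ => ℓ.elim0⟩
  · exact stage_pos hX hB hR hF t m0 ht

end Pool.Agent.H548.LU
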