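import Pool.Agent.H548.LU.Defs

/-! Project LU, part C: cardinalities. -/

namespace Pool.Agent.H548.LU

open Finset Classical

theorem card_Lab (k d N : ℕ) : Fintype.card (Lab k d N) = (k * k) ^ d * N := by
  simp [Lab, Fintype.card_prod, Fintype.card_pi]

theorem card_Vx (k d N : ℕ) : Fintype.card (Vx k d N) = 2 * ((k * k) ^ d * N) := by
  rw [Fintype.card_sum, card_Lab]; ring

/-- pairs containing z -/
theorem card_pairs (k : ℕ) (z : Fin k) :
    ((univ : Finset (Fin k × Fin k)).filter fun p => z = p.1 ∨ z = p.2).card ≤ 2 * k := by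
  have h : ((univ : Finset (Fin k × Fin k)).filter fun p => z = p.1 ∨ z = p.2) ⊆
      (univ.image fun y : Fin k => (z, y)) ∪ (univ.image fun x : Fin k => (x, z)) := by
    intro p hp
    rw [mem_filter] at hp
    rw [mem_union, mem_image, mem_image]
    rcases hp.2 with h | h
    · left; exact ⟨p.2, mem_univ _, by rw [h]⟩
    · right; exact ⟨p.1, mem_univ _, by rw [h]⟩
  calc _ ≤ _ := card_le_card h
    _ ≤ _ := card_union_le _ _
    _ ≤ k + k := by
        apply Nat.add_le_add <;> refine le_trans card_image_le (by simp)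
    _ = 2 * k := by ring

/-- the number of neighbours of b in Pot -/
theorem card_PotB (k d N : ℕ) (b : Lab k d N) :
    ((univ : Finset (Lab k d N)).filter fun a => (a, b) ∈ Pot k d N).card ≤ (2 * k) ^ d * N := by
  have h : ((univ : Finset (Lab k d N)).filter fun a => (a, b) ∈ Pot k d N) ⊆
      (Fintype.piFinset fun j : Fin d =>
        ((univ : Finset (Fin k × Fin k)).filter fun p => zc b j = p.1 ∨ zc b j = p.2)) ×ˢ
      (univ : Finset (Fin N)) := by
    intro a ha
    rw [mem_filter] at ha
    have h2 := ha.2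
    simp only [Pot, mem_filter, mem_univ, true_and] at h2
    rw [mem_product]
    refine ⟨?_, mem_univ _⟩
    rw [Fintype.mem_piFinset]
    intro j
    rw [mem_filter]
    exact ⟨mem_univ _, h2 j⟩
  refine le_trans (card_le_card h) ?_
  rw [card_product, Fintype.card_piFinset, card_univ, Fintype.card_fin]
  apply Nat.mul_le_mul_right
  calc _ ≤ ∏ _j : Fin d, 2 * k := prod_le_prod' fun j _ => card_pairs k _
    _ = (2 * k) ^ d := by simp

theorem card_inn_Pot (k d N : ℕ) (W : Finset (Vx k d N)) :
    (inn (Pot k d N) W).card ≤ (2 * k) ^ d * N * W.card := by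
  have h : inn (Pot k d N) W ⊆ ((univ : Finset (Lab k d N)).filter fun b =>
      (Sum.inr b : Vx k d N) ∈ W).biUnion fun b =>
        (((univ : Finset (Lab k d N)).filter fun a => (a, b) ∈ Pot k d N).image
          fun a => (a, b)) := by
    intro e he
    simp only [inn, mem_filter] at he
    rw [mem_biUnion]
    refine ⟨e.2, ?_, ?_⟩
    · rw [mem_filter]; exact ⟨mem_univ _, he.2.2⟩
    · rw [mem_image]
      refine ⟨e.1, ?_, rfl⟩
      rw [mem_filter]; exact ⟨mem_univ _, he.1⟩
  refine le_trans (card_le_card h) ?_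
  refine le_trans card_biUnion_le ?_
  have h2 : ∀ b ∈ ((univ : Finset (Lab k d N)).filter fun b => (Sum.inr b : Vx k d N) ∈ W),
      (((univ : Finset (Lab k d N)).filter fun a => (a, b) ∈ Pot k d N).image
          fun a => (a, b)).card ≤ (2 * k) ^ d * N := by
    intro b _
    exact le_trans card_image_le (card_PotB k d N b)
  refine le_trans (sum_le_sum h2) ?_
  rw [sum_const, smul_eq_mul, mul_comm]
  apply Nat.mul_le_mul_left
  have h3 : (((univ : Finset (Lab k d N)).filter fun b => (Sum.inr b : Vx k d N) ∈ W).image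
      fun b => (Sum.inr b : Vx k d N)) ⊆ W := by
    intro v hv
    rw [mem_image] at hv
    obtain ⟨b, hb, rfl⟩ := hv
    exact (mem_filter.mp hb).2
  calc _ = _ := (card_image_of_injective _ Sum.inr_injective).symm
    _ ≤ _ := card_le_card h3

/-- the compatible quadruples -/
theorem card_Q (k : ℕ) : ((univ : Finset ((Fin k × Fin k) × (Fin k × Fin k))).filter
      fun p => p.2.1 = p.1.1 ∨ p.2.1 = p.1.2).card + k * k = 2 * (k * k * k) := by
  have h1 : ((univ : Finset ((Fin k × Fin k) × (Fin k × Fin k))).filter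
      fun p => p.2.1 = p.1.1).card = k * k * k := by
    have : ((univ : Finset ((Fin k × Fin k) × (Fin k × Fin k))).filter
      fun p => p.2.1 = p.1.1) = (univ : Finset (Fin k × Fin k × Fin k)).image
        (fun q => ((q.1, q.2.1), (q.1, q.2.2))) := by
      ext p
      simp only [mem_filter, mem_univ, true_and, mem_image]
      constructor
      · intro h
        refine ⟨(p.1.1, p.1.2, p.2.2), ?_⟩
        ext <;> simp [← h]
      · rintro ⟨q, rfl⟩; rfl
    rw [this, card_image_of_injective]
    · simp [Fintype.card_prod, mul_assoc]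
    · intro q q' h
      simp only [Prod.mk.injEq] at h
      ext <;> simp [h]
  have h2 : ((univ : Finset ((Fin k × Fin k) × (Fin k × Fin k))).filter
      fun p => p.2.1 = p.1.2).card = k * k * k := by
    have : ((univ : Finset ((Fin k × Fin k) × (Fin k × Fin k))).filter
      fun p => p.2.1 = p.1.2) = (univ : Finset (Fin k × Fin k × Fin k)).image
        (fun q => ((q.2.1, q.1), (q.1, q.2.2))) := by
      ext p
      simp only [mem_filter, mem_univ, true_and, mem_image]
      constructor
      · intro h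
        refine ⟨(p.1.2, p.1.1, p.2.2), ?_⟩
        ext <;> simp [← h]
      · rintro ⟨q, rfl⟩; rfl
    rw [this, card_image_of_injective]
    · simp [Fintype.card_prod, mul_assoc]
    · intro q q' h
      simp only [Prod.mk.injEq] at h
      ext <;> simp [h]
  have h3 : (((univ : Finset ((Fin k × Fin k) × (Fin k × Fin k))).filter
      fun p => p.2.1 = p.1.1) ∩ ((univ : Finset ((Fin k × Fin k) × (Fin k × Fin k))).filter
      fun p => p.2.1 = p.1.2)).card = k * k := by
    have : (((univ : Finset ((Fin k × Fin k) × (Fin k × Fin k))).filter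
      fun p => p.2.1 = p.1.1) ∩ ((univ : Finset ((Fin k × Fin k) × (Fin k × Fin k))).filter
      fun p => p.2.1 = p.1.2)) = (univ : Finset (Fin k × Fin k)).image
        (fun q => ((q.1, q.1), (q.1, q.2))) := by
      ext p
      simp only [mem_inter, mem_filter, mem_univ, true_and, mem_image]
      constructor
      · rintro ⟨h, h'⟩
        refine ⟨(p.1.1, p.2.2), ?_⟩
        ext <;> simp [← h, ← h']
      · rintro ⟨q, rfl⟩; exact ⟨rfl, rfl⟩
    rw [this, card_image_of_injective]
    · simp [Fintype.card_prod]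
    · intro q q' h
      simp only [Prod.mk.injEq] at h
      ext <;> simp [h]
  have h4 := card_union_add_card_inter
    ((univ : Finset ((Fin k × Fin k) × (Fin k × Fin k))).filter fun p => p.2.1 = p.1.1)
    ((univ : Finset ((Fin k × Fin k) × (Fin k × Fin k))).filter fun p => p.2.1 = p.1.2)
  rw [← filter_or, h1, h2, h3] at h4
  omega

theorem card_Pot (k d N : ℕ) : (Pot k d N).card =
    (((univ : Finset ((Fin k × Fin k) × (Fin k × Fin k))).filter
      fun p => p.2.1 = p.1.1 ∨ p.2.1 = p.1.2).card) ^ d * (N * N) := by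
  set Q := ((univ : Finset ((Fin k × Fin k) × (Fin k × Fin k))).filter
      fun p => p.2.1 = p.1.1 ∨ p.2.1 = p.1.2) with hQ
  have : Pot k d N = ((Fintype.piFinset fun _ : Fin d => Q) ×ˢ
      (univ : Finset (Fin N × Fin N))).image
      (fun p => ((fun j => (p.1 j).1, p.2.1), (fun j => (p.1 j).2, p.2.2))) := by
    ext e
    simp only [Pot, mem_filter, mem_univ, true_and, mem_image, mem_product, and_true,
      Fintype.mem_piFinset]
    constructor
    · intro h
      refine ⟨(fun j => (e.1.1 j, e.2.1 j), (e.1.2, e.2.2)), ?_, rfl⟩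
      intro j
      rw [hQ, mem_filter]
      exact ⟨mem_univ _, h j⟩
    · rintro ⟨p, hp, rfl⟩ j
      have := hp j
      rw [hQ, mem_filter] at this
      exact this.2
  rw [this, card_image_of_injective, card_product, Fintype.card_piFinset]
  · simp
  · intro p p' h
    simp only [Prod.mk.injEq] at h
    obtain ⟨⟨h1, h2⟩, h3, h4⟩ := h
    refine Prod.ext ?_ (Prod.ext h2 h4)
    funext j
    exact Prod.ext (congrFun h1 j) (congrFun h3 j)

/-- lower bound for the number of potential edges -/
theorem card_Pot_ge (k d N : ℕ) (hk : 2 * d ≤ k) (hd : 0 < d) :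
    (3 / 4 : ℝ) * ((k : ℝ) ^ 2) ^ d * (2 * (k : ℝ)) ^ d * (N : ℝ) ^ 2 ≤ ((Pot k d N).card : ℝ) := by
  have hk0 : 0 < k := by omega
  have hkR : (0 : ℝ) < k := by exact_mod_cast hk0
  have hQ : ((((univ : Finset ((Fin k × Fin k) × (Fin k × Fin k))).filter
      fun p => p.2.1 = p.1.1 ∨ p.2.1 = p.1.2).card : ℕ) : ℝ) =
      (k : ℝ) ^ 2 * (2 * k) * (1 - 1 / (2 * k)) := by
    have := card_Q k
    have h2 : ((((univ : Finset ((Fin k × Fin k) × (Fin k × Fin k))).filter
      fun p => p.2.1 = p.1.1 ∨ p.2.1 = p.1.2).card : ℕ) : ℝ) + (k : ℝ) * k =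
        2 * ((k : ℝ) * k * k) := by exact_mod_cast this
    field_simp
    linarith
  rw [card_Pot]
  push_cast
  rw [hQ]
  have hB : (3 / 4 : ℝ) ≤ (1 - 1 / (2 * (k : ℝ))) ^ d := by
    have h1 : (-2 : ℝ) ≤ -(1 / (2 * (k : ℝ))) := by
      have : 1 / (2 * (k : ℝ)) ≤ 1 := by
        rw [div_le_one (by positivity)]
        have : (1 : ℝ) ≤ k := by exact_mod_cast hk0
        linarith
      linarith
    have h2 := one_add_mul_le_pow h1 d
    have h3 : (d : ℝ) * (1 / (2 * (k : ℝ))) ≤ 1 / 4 := by
      rw [mul_one_div, div_le_div_iff₀ (by positivity) (by norm_num)]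
      have : (2 : ℝ) * d ≤ k := by exact_mod_cast hk
      linarith
    have h4 : (1 : ℝ) + -(1 / (2 * (k : ℝ))) = 1 - 1 / (2 * (k : ℝ)) := by ring
    rw [h4] at h2
    nlinarith
  have h5 : (0 : ℝ) ≤ ((k : ℝ) ^ 2) ^ d * (2 * (k : ℝ)) ^ d * (N : ℝ) ^ 2 := by positivity
  have h6 : ((k : ℝ) ^ 2 * (2 * k) * (1 - 1 / (2 * k))) ^ d * ((N : ℝ) * N) =
      ((k : ℝ) ^ 2) ^ d * (2 * (k : ℝ)) ^ d * (N : ℝ) ^ 2 * (1 - 1 / (2 * k)) ^ d := by
    rw [mul_pow, mul_pow]; ring
  rw [h6]
  calc _ = ((k : ℝ) ^ 2) ^ d * (2 * (k : ℝ)) ^ d * (N : ℝ) ^ 2 * (3 / 4) := by ring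
    _ ≤ _ := mul_le_mul_of_nonneg_left hB h5

end Pool.Agent.H548.LU
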