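import Pool.Agent.H548.LU.C1

/-! Project LU, part C: the families of events. -/

namespace Pool.Agent.H548.LU

open Finset Classical

/-! ### upper degree events -/

theorem tailU (K q n : ℕ) (hq : 0 < q) (hn : n ≤ K * q) :
    (1 / 2 : ℝ) ^ (4 * K) * (1 + 1 / (q : ℝ)) ^ n ≤ Real.exp (-(K : ℝ)) := by
  have hqR : (0 : ℝ) < q := by exact_mod_cast hq
  have h1 : (1 / 2 : ℝ) ^ (4 * K) ≤ Real.exp (-(2 * (K : ℝ))) := by
    rw [pow_mul]
    have h2 : ((1 / 2 : ℝ) ^ 4) ≤ Real.exp (-2) := by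
      have h3 : Real.exp 2 ≤ 16 := by
        have h4 : Real.exp 2 = Real.exp 1 * Real.exp 1 := by rw [← Real.exp_add]; norm_num
        have h5 := Real.exp_one_lt_d9
        have h6 := Real.exp_pos 1
        rw [h4]
        nlinarith
      rw [Real.exp_neg]
      rw [show ((1 / 2 : ℝ) ^ 4) = (16 : ℝ)⁻¹ by norm_num]
      exact inv_anti₀ (Real.exp_pos 2) h3
    calc ((1 / 2 : ℝ) ^ 4) ^ K ≤ (Real.exp (-2)) ^ K :=
          pow_le_pow_left₀ (by positivity) h2 K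
      _ = Real.exp (-(2 * (K : ℝ))) := by
          rw [← Real.exp_nat_mul]; congr 1; ring
  have h2 : (1 + 1 / (q : ℝ)) ^ n ≤ Real.exp (K : ℝ) := by
    calc (1 + 1 / (q : ℝ)) ^ n ≤ (Real.exp (1 / (q : ℝ))) ^ n := by
          apply pow_le_pow_left₀ (by positivity)
          have := Real.add_one_le_exp (1 / (q : ℝ))
          linarith
      _ = Real.exp (n * (1 / (q : ℝ))) := by rw [← Real.exp_nat_mul]
      _ ≤ Real.exp (K : ℝ) := by
          apply Real.exp_le_exp.mpr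
          rw [mul_one_div, div_le_iff₀ hqR]
          exact_mod_cast hn
  calc _ ≤ Real.exp (-(2 * (K : ℝ))) * Real.exp (K : ℝ) :=
        mul_le_mul h1 h2 (by positivity) (Real.exp_pos _).le
    _ = Real.exp (-(K : ℝ)) := by rw [← Real.exp_add]; congr 1; ring

abbrev IU (k d N : ℕ) : Type :=
  (Lab k d N × (Fin d → Fin k)) ⊕ (Lab k d N × (Fin d → Fin k × Fin k))

noncomputable def TU (k d N : ℕ) : IU k d N → Finset (Ed k d N) :=
  Sum.elim (fun p => univ.filter fun e : Ed k d N => e.1 = p.1 ∧ ∀ j, zc e.2 j = p.2 j)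
    (fun p => univ.filter fun e : Ed k d N => e.2 = p.1 ∧ e.1.1 = p.2)

def sU (k d N M : ℕ) : IU k d N → ℕ := Sum.elim (fun _ => 4 * (k ^ d * M)) (fun _ => 4 * M)

theorem card_TU_inl (k d N : ℕ) (p : Lab k d N × (Fin d → Fin k)) :
    (TU k d N (Sum.inl p)).card ≤ k ^ d * N := by
  have h : (TU k d N (Sum.inl p)).card ≤
      (univ : Finset ((Fin d → Fin k) × Fin N)).card := by
    apply card_le_card_of_injOn (fun e => (fun j => (e.2.1 j).2, e.2.2))
    · intro e _; simp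
    · intro e he e' he' h
      simp only [TU, Sum.elim_inl, coe_filter, mem_univ, true_and, Set.mem_ofPred_eq] at he he'
      simp only [Prod.mk.injEq] at h
      refine Prod.ext (by rw [he.1, he'.1]) (Prod.ext ?_ h.2)
      funext j
      refine Prod.ext ?_ (congrFun h.1 j)
      have h1 := he.2 j
      have h2 := he'.2 j
      simp only [zc] at h1 h2
      rw [h1, h2]
  refine le_trans h ?_
  simp

theorem card_TU_inr (k d N : ℕ) (p : Lab k d N × (Fin d → Fin k × Fin k)) :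
    (TU k d N (Sum.inr p)).card ≤ N := by
  have h : (TU k d N (Sum.inr p)).card ≤ (univ : Finset (Fin N)).card := by
    apply card_le_card_of_injOn (fun e => e.1.2)
    · intro e _; simp
    · intro e he e' he' h
      simp only [TU, Sum.elim_inr, coe_filter, mem_univ, true_and, Set.mem_ofPred_eq] at he he'
      exact Prod.ext (Prod.ext (by rw [he.2, he'.2]) h) (by rw [he.1, he'.1])
  simpa using h

theorem sumU (k d M : ℕ) (hk : 0 < k) (hM : 0 < M) :
    (∑ i, (1 / 2 : ℝ) ^ (sU k d (M ^ 3) M i) *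
      (1 + 1 / ((M ^ 2 : ℕ) : ℝ)) ^ ((TU k d (M ^ 3) i).card)) ≤
    (Fintype.card (IU k d (M ^ 3)) : ℝ) * Real.exp (-(M : ℝ)) := by
  have hterm : ∀ i ∈ (univ : Finset (IU k d (M ^ 3))), (1 / 2 : ℝ) ^ (sU k d (M ^ 3) M i) *
      (1 + 1 / ((M ^ 2 : ℕ) : ℝ)) ^ ((TU k d (M ^ 3) i).card) ≤ Real.exp (-(M : ℝ)) := by
    intro i _
    rcases i with p | p
    · have h1 := tailU (k ^ d * M) (M ^ 2) ((TU k d (M ^ 3) (Sum.inl p)).card) (by positivity)
        (le_trans (card_TU_inl k d _ p) (by apply le_of_eq; ring))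
      refine le_trans h1 ?_
      apply Real.exp_le_exp.mpr
      have : (M : ℝ) ≤ ((k ^ d * M : ℕ) : ℝ) := by
        exact_mod_cast Nat.le_mul_of_pos_left M (by positivity)
      linarith
    · exact tailU M (M ^ 2) ((TU k d (M ^ 3) (Sum.inr p)).card) (by positivity)
        (le_trans (card_TU_inr k d _ p) (by apply le_of_eq; ring))
  refine le_trans (sum_le_sum hterm) ?_
  rw [sum_const, card_univ, nsmul_eq_mul]

/-! ### the number of edges -/

theorem tailL (k d M' : ℕ) (hd : 0 < d) (hk : 2 * d ≤ k) (hM : 0 < M') :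
    (2 : ℝ) ^ ((2 * k) ^ d * (k ^ 2) ^ d * (4 * M' ^ 4)) *
      (1 - 1 / (2 * (((2 * M') ^ 2 : ℕ) : ℝ))) ^ ((Pot k d ((2 * M') ^ 3)).card) ≤
    Real.exp (-(M' : ℝ)) := by
  have hk0 : 0 < k := by omega
  have hkR : (0 : ℝ) < k := by exact_mod_cast hk0
  have hMR : (1 : ℝ) ≤ M' := by exact_mod_cast hM
  set s : ℕ := (2 * k) ^ d * (k ^ 2) ^ d * (4 * M' ^ 4) with hs
  have hsR : (s : ℝ) = (2 * (k : ℝ)) ^ d * ((k : ℝ) ^ 2) ^ d * (4 * (M' : ℝ) ^ 4) := by
    rw [hs]; push_cast; ring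
  have h1 : (2 : ℝ) ^ s ≤ Real.exp (0.7 * s) := by
    have h2 : (2 : ℝ) ≤ Real.exp 0.7 := by
      rw [← Real.log_le_iff_le_exp (by norm_num)]
      have := Real.log_two_lt_d9
      linarith
    calc (2 : ℝ) ^ s ≤ (Real.exp 0.7) ^ s := pow_le_pow_left₀ (by norm_num) h2 s
      _ = Real.exp (0.7 * s) := by rw [← Real.exp_nat_mul]; congr 1; ring
  have hq0 : (0 : ℝ) < 2 * (((2 * M') ^ 2 : ℕ) : ℝ) := by positivity
  have hq1 : 1 / (2 * (((2 * M') ^ 2 : ℕ) : ℝ)) ≤ 1 := by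
    rw [div_le_one hq0]
    have : (1 : ℝ) ≤ (((2 * M') ^ 2 : ℕ) : ℝ) := by exact_mod_cast Nat.one_le_pow _ _ (by omega)
    linarith
  have h3 : (1 - 1 / (2 * (((2 * M') ^ 2 : ℕ) : ℝ))) ^ ((Pot k d ((2 * M') ^ 3)).card) ≤
      Real.exp (-(1.5 * s)) := by
    calc _ ≤ (Real.exp (-(1 / (2 * (((2 * M') ^ 2 : ℕ) : ℝ))))) ^
          ((Pot k d ((2 * M') ^ 3)).card) := by
          apply pow_le_pow_left₀ (by linarith)
          have := Real.add_one_le_exp (-(1 / (2 * (((2 * M') ^ 2 : ℕ) : ℝ))))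
          linarith
      _ = Real.exp (-(((Pot k d ((2 * M') ^ 3)).card : ℝ) *
            (1 / (2 * (((2 * M') ^ 2 : ℕ) : ℝ))))) := by
          rw [← Real.exp_nat_mul]; congr 1; ring
      _ ≤ _ := by
          apply Real.exp_le_exp.mpr
          have h4 := card_Pot_ge k d ((2 * M') ^ 3) hk hd
          have h5 : 1.5 * (s : ℝ) = (3 / 4 : ℝ) * ((k : ℝ) ^ 2) ^ d * (2 * (k : ℝ)) ^ d *
              (((2 * M') ^ 3 : ℕ) : ℝ) ^ 2 * (1 / (2 * (((2 * M') ^ 2 : ℕ) : ℝ))) := by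
            rw [hsR]; push_cast; field_simp; ring
          have h6 := mul_le_mul_of_nonneg_right h4 (by positivity :
            (0 : ℝ) ≤ 1 / (2 * (((2 * M') ^ 2 : ℕ) : ℝ)))
          linarith
  calc _ ≤ Real.exp (0.7 * s) * Real.exp (-(1.5 * s)) :=
        mul_le_mul h1 h3 (pow_nonneg (by linarith) _) (Real.exp_pos _).le
    _ = Real.exp (-(0.8 * s)) := by rw [← Real.exp_add]; congr 1; ring
    _ ≤ _ := by
        apply Real.exp_le_exp.mpr
        have h7 : 4 * (M' : ℝ) ≤ s := by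
          have h8 : 4 * M' ≤ s := by
            rw [hs]
            have h9 : 1 ≤ (2 * k) ^ d * (k ^ 2) ^ d := Nat.one_le_iff_ne_zero.mpr (by positivity)
            have h10 : M' ≤ M' ^ 4 := Nat.le_self_pow (by norm_num) _
            calc 4 * M' ≤ 1 * (4 * M' ^ 4) := by omega
              _ ≤ _ := Nat.mul_le_mul_right _ h9
          exact_mod_cast h8
        linarith

/-! ### small sets -/

noncomputable def TA {k d N : ℕ} {z : ℕ} (v : Fin z → Vx k d N) (T : Finset (Fin z × Fin z)) :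
    Finset (Ed k d N) :=
  univ.filter fun e => ∃ p ∈ T, v p.1 = Sum.inl e.1 ∧ v p.2 = Sum.inr e.2

abbrev IA (k d N m0 : ℕ) : Type :=
  {p : (z : Fin (m0 + 1)) × ((Fin z.1 → Vx k d N) × Finset (Fin z.1 × Fin z.1)) //
    (TA p.2.1 p.2.2).card = 2 * p.1.1 + 1}

theorem sumA (k d m0 M : ℕ) (hk : 0 < k) (hM : 0 < M) :
    (∑ i : IA k d (M ^ 3) m0, (1 / ((M ^ 2 : ℕ) : ℝ)) ^ ((TA i.1.2.1 i.1.2.2).card)) ≤
    ((m0 : ℝ) + 1) * (2 * ((k : ℝ) * k) ^ d) ^ m0 * 2 ^ (m0 * m0) / (M : ℝ) ^ 2 := by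
  have hMR : (1 : ℝ) ≤ M := by exact_mod_cast hM
  have hkR : (1 : ℝ) ≤ k := by exact_mod_cast hk
  have h1 : (∑ i : IA k d (M ^ 3) m0, (1 / ((M ^ 2 : ℕ) : ℝ)) ^ ((TA i.1.2.1 i.1.2.2).card)) ≤
      ∑ p : (z : Fin (m0 + 1)) × ((Fin z.1 → Vx k d (M ^ 3)) × Finset (Fin z.1 × Fin z.1)),
        (1 / ((M ^ 2 : ℕ) : ℝ)) ^ (2 * p.1.1 + 1) := by
    calc _ = ∑ i : IA k d (M ^ 3) m0, (1 / ((M ^ 2 : ℕ) : ℝ)) ^ (2 * i.1.1.1 + 1) := by
          apply sum_congr rfl
          intro i _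
          rw [i.2]
      _ ≤ _ := by
          rw [← Finset.sum_subtype (univ.filter fun p : (z : Fin (m0 + 1)) ×
            ((Fin z.1 → Vx k d (M ^ 3)) × Finset (Fin z.1 × Fin z.1)) =>
            (TA p.2.1 p.2.2).card = 2 * p.1.1 + 1) (by intro x; simp)
            (fun p => (1 / ((M ^ 2 : ℕ) : ℝ)) ^ (2 * p.1.1 + 1))]
          apply sum_le_sum_of_subset_of_nonneg (filter_subset _ _)
          intro i _ _
          positivity
  refine le_trans h1 ?_
  rw [Fintype.sum_sigma]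
  have h2 : ∀ z ∈ (univ : Finset (Fin (m0 + 1))),
      (∑ _y : (Fin z.1 → Vx k d (M ^ 3)) × Finset (Fin z.1 × Fin z.1),
        (1 / ((M ^ 2 : ℕ) : ℝ)) ^ (2 * z.1 + 1)) ≤
      (2 * ((k : ℝ) * k) ^ d) ^ m0 * 2 ^ (m0 * m0) / (M : ℝ) ^ 2 := by
    intro z _
    rw [sum_const, card_univ, nsmul_eq_mul, Fintype.card_prod, Fintype.card_pi, Fintype.card_finset,
      Fintype.card_prod]
    simp only [prod_const, card_univ, Fintype.card_fin, card_Vx]
    push_cast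
    have hz : z.1 ≤ m0 := by have := z.2; omega
    have h3 : (2 * (((k : ℝ) * k) ^ d * (M : ℝ) ^ 3)) ^ z.1 * 2 ^ (z.1 * z.1) *
        (1 / (M : ℝ) ^ 2) ^ (2 * z.1 + 1) =
        (2 * ((k : ℝ) * k) ^ d) ^ z.1 * 2 ^ (z.1 * z.1) / (M : ℝ) ^ (z.1 + 2) := by
      have hM0 : (M : ℝ) ≠ 0 := by positivity
      rw [show (2 * (((k : ℝ) * k) ^ d * (M : ℝ) ^ 3)) = (2 * ((k : ℝ) * k) ^ d) * (M : ℝ) ^ 3 by ring,
        mul_pow _ ((M : ℝ) ^ 3)]
      rw [div_pow, one_pow, ← pow_mul, ← pow_mul]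
      rw [mul_one_div, div_eq_div_iff (by positivity) (by positivity)]
      have : (M : ℝ) ^ (3 * z.1) * (M : ℝ) ^ (z.1 + 2) = (M : ℝ) ^ (2 * (2 * z.1 + 1)) := by
        rw [← pow_add]; congr 1; ring
      rw [← this]; ring
    rw [h3]
    have hbase : (1 : ℝ) ≤ 2 * ((k : ℝ) * k) ^ d := by
      have : (1 : ℝ) ≤ ((k : ℝ) * k) ^ d := one_le_pow₀ (by nlinarith)
      linarith
    apply div_le_div₀ (by positivity) _ (by positivity) _
    · apply mul_le_mul (pow_le_pow_right₀ hbase hz) _ (by positivity) (by positivity)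
      exact pow_le_pow_right₀ (by norm_num) (Nat.mul_le_mul hz hz)
    · exact pow_le_pow_right₀ hMR (by omega)
  refine le_trans (sum_le_sum h2) ?_
  rw [sum_const, card_univ, Fintype.card_fin, nsmul_eq_mul]
  push_cast
  apply le_of_eq
  ring

end Pool.Agent.H548.LU
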