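import Pool.Agent.H548.LU.C2

/-! Project LU, part C: the rigidity events. -/

namespace Pool.Agent.H548.LU

open Finset Classical

/-- the edge with the given end points (default if the sides agree) -/
def imgE {k d N : ℕ} : Vx k d N → Vx k d N → Ed k d N → Ed k d N
  | Sum.inl a, Sum.inr b, _ => (a, b)
  | Sum.inr b, Sum.inl a, _ => (a, b)
  | Sum.inl _, Sum.inl _, e => e
  | Sum.inr _, Sum.inr _, e => e

theorem imgE_spec {k d N : ℕ} (x y : Vx k d N) (e : Ed k d N) (h : imgE x y e ≠ e) :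
    (x = Sum.inl (imgE x y e).1 ∧ y = Sum.inr (imgE x y e).2) ∨
    (x = Sum.inr (imgE x y e).2 ∧ y = Sum.inl (imgE x y e).1) := by
  rcases x with a | b <;> rcases y with a' | b' <;> simp [imgE] at h ⊢

theorem imgE_adj {k d N : ℕ} {X : Finset (Ed k d N)} (x y : Vx k d N) (e : Ed k d N)
    (h : (gr X).Adj x y) : imgE x y e ∈ X ∧
      ((x = Sum.inl (imgE x y e).1 ∧ y = Sum.inr (imgE x y e).2) ∨
        (x = Sum.inr (imgE x y e).2 ∧ y = Sum.inl (imgE x y e).1)) := by
  rcases h with ⟨e', he', rfl, rfl⟩ | ⟨e', he', rfl, rfl⟩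
  · exact ⟨he', Or.inl ⟨rfl, rfl⟩⟩
  · exact ⟨he', Or.inr ⟨rfl, rfl⟩⟩

abbrev IP (k d N : ℕ) : Type :=
  (W : {W : Finset (Vx k d N) // W.Nonempty}) × ({v : Vx k d N // v ∈ W.1} → Vx k d N)

noncomputable def fP {k d N : ℕ} (p : IP k d N) (e : Ed k d N) : Ed k d N :=
  if h : Sum.inl e.1 ∈ p.1.1 ∧ Sum.inr e.2 ∈ p.1.1 then
    imgE (p.2 ⟨Sum.inl e.1, h.1⟩) (p.2 ⟨Sum.inr e.2, h.2⟩) e else e

noncomputable def SP {k d N : ℕ} (p : IP k d N) : Finset (Ed k d N) :=
  if Function.Injective p.2 then (inn (Pot k d N) p.1.1).filter fun e => fP p e ≠ e else ∅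

theorem SP_ne {k d N : ℕ} (p : IP k d N) : ∀ e ∈ SP p, fP p e ≠ e := by
  intro e he
  unfold SP at he
  split_ifs at he with h
  · exact (mem_filter.mp he).2
  · simp at he

theorem SP_inj {k d N : ℕ} (p : IP k d N) : Set.InjOn (fP p) (SP p : Set (Ed k d N)) := by
  intro e he e' he' hee
  have he0 : e ∈ SP p := by exact_mod_cast he
  have he0' : e' ∈ SP p := by exact_mod_cast he'
  unfold SP at he0 he0'
  split_ifs at he0 he0' with hinj
  · rw [mem_filter] at he0 he0'
    have h1 := (mem_filter.mp he0.1).2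
    have h1' := (mem_filter.mp he0'.1).2
    have hf : fP p e = imgE (p.2 ⟨Sum.inl e.1, h1.1⟩) (p.2 ⟨Sum.inr e.2, h1.2⟩) e := by
      unfold fP; rw [dif_pos h1]
    have hf' : fP p e' = imgE (p.2 ⟨Sum.inl e'.1, h1'.1⟩) (p.2 ⟨Sum.inr e'.2, h1'.2⟩) e' := by
      unfold fP; rw [dif_pos h1']
    have h2 := imgE_spec _ _ e (by rw [← hf]; exact he0.2)
    have h2' := imgE_spec _ _ e' (by rw [← hf']; exact he0'.2)
    rw [← hf] at h2
    rw [← hf', ← hee] at h2'
    rcases h2 with ⟨h3, h4⟩ | ⟨h3, h4⟩ <;> rcases h2' with ⟨h3', h4'⟩ | ⟨h3', h4'⟩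
    · have h5 := hinj (h3.trans h3'.symm)
      have h6 := hinj (h4.trans h4'.symm)
      have h7 := congrArg Subtype.val h5
      have h8 := congrArg Subtype.val h6
      simp only [Sum.inl.injEq, Sum.inr.injEq] at h7 h8
      exact Prod.ext h7 h8
    · have h5 := hinj (h3.trans h4'.symm)
      have h7 := congrArg Subtype.val h5
      simp at h7
    · have h5 := hinj (h4.trans h3'.symm)
      have h7 := congrArg Subtype.val h5
      simp at h7
    · have h5 := hinj (h3.trans h3'.symm)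
      have h6 := hinj (h4.trans h4'.symm)
      have h7 := congrArg Subtype.val h5
      have h8 := congrArg Subtype.val h6
      simp only [Sum.inl.injEq, Sum.inr.injEq] at h7 h8
      exact Prod.ext h7 h8
  · simp at he0

theorem card_SP {k d N : ℕ} (p : IP k d N) : (SP p).card ≤ (2 * k) ^ d * N * p.1.1.card := by
  unfold SP
  split_ifs with h
  · exact le_trans (card_le_card (filter_subset _ _)) (card_inn_Pot k d N _)
  · simp

/-- rigidity from the events -/
theorem rigid_of {k d N : ℕ} {X0 : Finset (Ed k d N)} (r : ℝ) (hr : 1 ≤ r)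
    (hX0 : ∀ p : IP k d N, ((SP p).filter fun e => e ∈ X0 ∧ fP p e ∈ X0).card <
      3 * ⌊(r - 1) * (p.1.1.card : ℝ) / 3⌋₊ + 1)
    (W : Finset (Vx k d N)) (φ : Vx k d N → Vx k d N)
    (hφ : Set.InjOn φ (W : Set (Vx k d N))) :
    (((inn (X0 ∩ Pot k d N) W).filter fun e =>
      ¬ (φ (Sum.inl e.1) = Sum.inl e.1 ∧ φ (Sum.inr e.2) = Sum.inr e.2) ∧
      (gr (X0 ∩ Pot k d N)).Adj (φ (Sum.inl e.1)) (φ (Sum.inr e.2))).card : ℝ) ≤ r * W.card := by
  rcases W.eq_empty_or_nonempty with hW | hW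
  · subst hW
    have : inn (X0 ∩ Pot k d N) (∅ : Finset (Vx k d N)) = ∅ := by
      ext e; simp [inn]
    rw [this]; simp
  · set p : IP k d N := ⟨⟨W, hW⟩, fun v => φ v.1⟩ with hp
    have hinj : Function.Injective p.2 := by
      intro u v huv
      apply Subtype.ext
      exact hφ (by exact_mod_cast u.2) (by exact_mod_cast v.2) huv
    set F := ((inn (X0 ∩ Pot k d N) W).filter fun e =>
      ¬ (φ (Sum.inl e.1) = Sum.inl e.1 ∧ φ (Sum.inr e.2) = Sum.inr e.2) ∧
      (gr (X0 ∩ Pot k d N)).Adj (φ (Sum.inl e.1)) (φ (Sum.inr e.2))) with hF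
    set Sw := ((inn (X0 ∩ Pot k d N) W).filter fun e =>
      φ (Sum.inl e.1) = Sum.inr e.2 ∧ φ (Sum.inr e.2) = Sum.inl e.1) with hSw
    have hsub : F ⊆ ((SP p).filter fun e => e ∈ X0 ∧ fP p e ∈ X0) ∪ Sw := by
      intro e he
      rw [hF, mem_filter] at he
      obtain ⟨he1, he2, he3⟩ := he
      have he1' := he1
      simp only [inn, mem_filter, mem_inter] at he1'
      obtain ⟨⟨heX, hePot⟩, hu, hv⟩ := he1'
      have hf : fP p e = imgE (φ (Sum.inl e.1)) (φ (Sum.inr e.2)) e := by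
        unfold fP; rw [dif_pos ⟨hu, hv⟩]
      obtain ⟨h1, h2⟩ := imgE_adj _ _ e he3
      rw [← hf] at h1 h2
      rw [mem_union]
      by_cases hfe : fP p e = e
      · right
        rw [hfe] at h2
        rcases h2 with h2 | h2
        · exact absurd h2 he2
        · rw [hSw, mem_filter]
          exact ⟨he1, h2⟩
      · left
        rw [mem_filter]
        refine ⟨?_, heX, (mem_inter.mp h1).1⟩
        unfold SP
        rw [if_pos hinj, mem_filter]
        refine ⟨?_, hfe⟩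
        simp only [inn, mem_filter]
        exact ⟨hePot, hu, hv⟩
    have hSwc : Sw.card ≤ W.card := by
      apply card_le_card_of_injOn (fun e => Sum.inl e.1)
      · intro e he
        have : e ∈ Sw := by exact_mod_cast he
        rw [hSw, mem_filter] at this
        have h := this.1
        simp only [inn, mem_filter] at h
        exact_mod_cast h.2.1
      · intro e he e' he' hee
        have h1 : e ∈ Sw := by exact_mod_cast he
        have h2 : e' ∈ Sw := by exact_mod_cast he'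
        rw [hSw, mem_filter] at h1 h2
        simp only [Sum.inl.injEq] at hee
        have h3 := h1.2.1
        have h4 := h2.2.1
        rw [← hee, h3, Sum.inr.injEq] at h4
        exact Prod.ext hee h4
    have h1 := hX0 p
    have h2 : F.card ≤ 3 * ⌊(r - 1) * (W.card : ℝ) / 3⌋₊ + W.card := by
      calc F.card ≤ _ := card_le_card hsub
        _ ≤ _ := card_union_le _ _
        _ ≤ _ := by
          apply Nat.add_le_add _ hSwc
          have : p.1.1.card = W.card := rfl
          rw [this] at h1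
          omega
    have h3 : (⌊(r - 1) * (W.card : ℝ) / 3⌋₊ : ℝ) ≤ (r - 1) * (W.card : ℝ) / 3 :=
      Nat.floor_le (by
        apply div_nonneg _ (by norm_num)
        exact mul_nonneg (by linarith) (Nat.cast_nonneg _))
    have h4 : (F.card : ℝ) ≤ 3 * (⌊(r - 1) * (W.card : ℝ) / 3⌋₊ : ℝ) + W.card := by
      exact_mod_cast h2
    nlinarith

/-- the sum of the probabilities -/
theorem sumP (k d M : ℕ) (hM : 0 < M) (r : ℝ)
    (hy : (Fintype.card (Vx k d (M ^ 3)) : ℝ) ^ 2 *
      Real.exp (-((r - 1) / 6) + (2 * (k : ℝ)) ^ d) ≤ 1) :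
    (∑ p : IP k d (M ^ 3), 3 * (1 / 2 : ℝ) ^ (⌊(r - 1) * (p.1.1.card : ℝ) / 3⌋₊) *
      (1 + 1 / ((M ^ 2 : ℕ) : ℝ) ^ 2) ^ ((SP p).card)) ≤
    12 * ((Fintype.card (Vx k d (M ^ 3)) : ℝ) ^ 2 *
      Real.exp (-((r - 1) / 6) + (2 * (k : ℝ)) ^ d)) := by
  have hMR : (1 : ℝ) ≤ M := by exact_mod_cast hM
  set n : ℕ := Fintype.card (Vx k d (M ^ 3)) with hn
  set y0 : ℝ := Real.exp (-((r - 1) / 6) + (2 * (k : ℝ)) ^ d) with hy0
  have hy0p : 0 < y0 := Real.exp_pos _
  have hterm : ∀ p : IP k d (M ^ 3), 3 * (1 / 2 : ℝ) ^ (⌊(r - 1) * (p.1.1.card : ℝ) / 3⌋₊) *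
      (1 + 1 / ((M ^ 2 : ℕ) : ℝ) ^ 2) ^ ((SP p).card) ≤ 6 * y0 ^ (p.1.1.card) := by
    intro p
    set w : ℕ := p.1.1.card with hw
    have h1 : (1 / 2 : ℝ) ^ (⌊(r - 1) * (w : ℝ) / 3⌋₊) ≤
        2 * Real.exp (-((r - 1) * w / 6)) := by
      have h2 : (1 / 2 : ℝ) ≤ Real.exp (-(1 / 2)) := by
        have := Real.add_one_le_exp (-(1 / 2 : ℝ))
        linarith
      calc (1 / 2 : ℝ) ^ (⌊(r - 1) * (w : ℝ) / 3⌋₊) ≤
            (Real.exp (-(1 / 2))) ^ (⌊(r - 1) * (w : ℝ) / 3⌋₊) :=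
            pow_le_pow_left₀ (by norm_num) h2 _
        _ = Real.exp (-((⌊(r - 1) * (w : ℝ) / 3⌋₊ : ℝ) / 2)) := by
            rw [← Real.exp_nat_mul]; congr 1; ring
        _ ≤ Real.exp (1 / 2 + -((r - 1) * w / 6)) := by
            apply Real.exp_le_exp.mpr
            have := Nat.lt_floor_add_one ((r - 1) * (w : ℝ) / 3)
            linarith
        _ = Real.exp (1 / 2) * Real.exp (-((r - 1) * w / 6)) := Real.exp_add _ _
        _ ≤ _ := by
            apply mul_le_mul_of_nonneg_right _ (Real.exp_pos _).le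
            have h3 : Real.exp (1 / 2 : ℝ) * Real.exp (1 / 2 : ℝ) = Real.exp 1 := by
              rw [← Real.exp_add]; norm_num
            have h4 := Real.exp_one_lt_d9
            have h5 := Real.exp_pos (1 / 2 : ℝ)
            nlinarith
    have h6 : (1 + 1 / ((M ^ 2 : ℕ) : ℝ) ^ 2) ^ ((SP p).card) ≤
        Real.exp ((2 * (k : ℝ)) ^ d * w) := by
      calc _ ≤ (Real.exp (1 / ((M ^ 2 : ℕ) : ℝ) ^ 2)) ^ ((SP p).card) := by
            apply pow_le_pow_left₀ (by positivity)
            have := Real.add_one_le_exp (1 / ((M ^ 2 : ℕ) : ℝ) ^ 2)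
            linarith
        _ = Real.exp (((SP p).card : ℝ) * (1 / ((M ^ 2 : ℕ) : ℝ) ^ 2)) := by
            rw [← Real.exp_nat_mul]
        _ ≤ _ := by
            apply Real.exp_le_exp.mpr
            have h7 : ((SP p).card : ℝ) ≤ (2 * (k : ℝ)) ^ d * (M : ℝ) ^ 3 * w := by
              exact_mod_cast card_SP p
            rw [mul_one_div, div_le_iff₀ (by positivity)]
            refine le_trans h7 ?_
            push_cast
            have h8 : (M : ℝ) ^ 3 ≤ ((M : ℝ) ^ 2) ^ 2 := by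
              rw [← pow_mul]; exact pow_le_pow_right₀ hMR (by norm_num)
            have h9 : (0 : ℝ) ≤ (2 * (k : ℝ)) ^ d * w := by positivity
            calc (2 * (k : ℝ)) ^ d * (M : ℝ) ^ 3 * w = (2 * (k : ℝ)) ^ d * w * (M : ℝ) ^ 3 := by ring
              _ ≤ _ := mul_le_mul_of_nonneg_left h8 h9
    calc _ ≤ 3 * (2 * Real.exp (-((r - 1) * w / 6))) * Real.exp ((2 * (k : ℝ)) ^ d * w) := by
          apply mul_le_mul _ h6 (by positivity) (by positivity)
          exact mul_le_mul_of_nonneg_left h1 (by norm_num)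
      _ = 6 * (Real.exp (-((r - 1) * w / 6)) * Real.exp ((2 * (k : ℝ)) ^ d * w)) := by ring
      _ = 6 * y0 ^ w := by
          rw [hy0, ← Real.exp_add, ← Real.exp_nat_mul]
          congr 2; ring
  refine le_trans (sum_le_sum fun p _ => hterm p) ?_
  rw [Fintype.sum_sigma]
  have h2 : ∀ W : {W : Finset (Vx k d (M ^ 3)) // W.Nonempty},
      (∑ _y : ({v : Vx k d (M ^ 3) // v ∈ W.1} → Vx k d (M ^ 3)), 6 * y0 ^ (W.1.card)) =
      6 * ((n : ℝ) * y0) ^ (W.1.card) := by
    intro W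
    rw [sum_const, card_univ, nsmul_eq_mul, Fintype.card_pi]
    simp only [prod_const, card_univ, Fintype.card_coe]
    rw [← hn]
    push_cast
    rw [mul_pow]; ring
  rw [sum_congr rfl fun W _ => h2 W, ← mul_sum]
  have h3 : (∑ W : {W : Finset (Vx k d (M ^ 3)) // W.Nonempty}, ((n : ℝ) * y0) ^ (W.1.card)) + 1 =
      (n * y0 + 1) ^ n := by
    rw [← Finset.sum_subtype ((univ : Finset (Finset (Vx k d (M ^ 3)))).filter
      fun W => W.Nonempty) (by intro x; simp) (fun W => ((n : ℝ) * y0) ^ (W.card))]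
    have h4 : (univ : Finset (Finset (Vx k d (M ^ 3)))) =
        insert ∅ ((univ : Finset (Finset (Vx k d (M ^ 3)))).filter fun W => W.Nonempty) := by
      ext W
      simp only [mem_univ, mem_insert, mem_filter, true_and, true_iff]
      exact W.eq_empty_or_nonempty
    have h5 : ∑ W : Finset (Vx k d (M ^ 3)), ((n : ℝ) * y0) ^ (W.card) = (n * y0 + 1) ^ n := by
      have := Finset.sum_pow_mul_eq_add_pow ((n : ℝ) * y0) 1 (univ : Finset (Vx k d (M ^ 3)))
      simp only [one_pow, mul_one, card_univ] at this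
      rw [← hn] at this
      rw [← this]
      apply sum_congr _ (fun _ _ => rfl)
      ext W; simp
    rw [← h5]
    conv_rhs => rw [h4]
    rw [sum_insert (by simp)]
    simp
    ring
  have h6 : ((n : ℝ) * y0 + 1) ^ n ≤ Real.exp ((n : ℝ) ^ 2 * y0) := by
    calc ((n : ℝ) * y0 + 1) ^ n ≤ (Real.exp ((n : ℝ) * y0)) ^ n :=
          pow_le_pow_left₀ (by positivity) (Real.add_one_le_exp _) n
      _ = _ := by rw [← Real.exp_nat_mul]; congr 1; ring
  have h7 : Real.exp ((n : ℝ) ^ 2 * y0) - 1 ≤ 2 * ((n : ℝ) ^ 2 * y0) := by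
    have h8 : 0 ≤ (n : ℝ) ^ 2 * y0 := by positivity
    have := Real.abs_exp_sub_one_le (x := (n : ℝ) ^ 2 * y0) (by rw [abs_of_nonneg h8]; exact hy)
    rw [abs_of_nonneg h8] at this
    exact le_trans (le_abs_self _) this
  linarith

end Pool.Agent.H548.LU
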