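import Pool.Agent.H548.LU.C3

/-! Project LU, part C: the host exists. -/

namespace Pool.Agent.H548.LU

open Finset Classical Filter Topology

theorem exists_goodX (h : StmtRnd) (k d m0 M' : ℕ) (ρ : ℝ) (hd : 0 < d) (hk : 2 * d ≤ k)
    (hM' : 0 < M') (hρD : 1 ≤ ρ * (4 * (2 * (k : ℝ)) ^ d * ((2 * M' : ℕ) : ℝ)))
    (hy : (Fintype.card (Vx k d ((2 * M') ^ 3)) : ℝ) ^ 2 *
      Real.exp (-((ρ * (4 * (2 * (k : ℝ)) ^ d * ((2 * M' : ℕ) : ℝ)) - 1) / 6) +
        (2 * (k : ℝ)) ^ d) < 1 / 48)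
    (hu : (Fintype.card (IU k d ((2 * M') ^ 3)) : ℝ) * Real.exp (-((2 * M' : ℕ) : ℝ)) < 1 / 4)
    (ha : ((m0 : ℝ) + 1) * (2 * ((k : ℝ) * k) ^ d) ^ m0 * 2 ^ (m0 * m0) /
      ((2 * M' : ℕ) : ℝ) ^ 2 < 1 / 4)
    (hl : Real.exp (-(M' : ℝ)) < 1 / 4) :
    ∃ X : Finset (Ed k d ((2 * M') ^ 3)),
      GoodX k d ((2 * M') ^ 3) m0 (4 * (2 * (k : ℝ)) ^ d * ((2 * M' : ℕ) : ℝ)) ρ X := by
  have hk0 : 0 < k := by omega
  have hkR : (0 : ℝ) < k := by exact_mod_cast hk0
  set M : ℕ := 2 * M' with hMdef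
  have hM : 0 < M := by omega
  have hMR : (0 : ℝ) < M := by exact_mod_cast hM
  set N : ℕ := M ^ 3 with hN
  set r : ℝ := ρ * (4 * (2 * (k : ℝ)) ^ d * (M : ℝ)) with hr
  have hsP := sumP k d M hM r (by linarith)
  have hsU := sumU k d M hk0 hM
  have hsA := sumA k d m0 M hk0 hM
  have hsL := tailL k d M' hd hk hM'
  obtain ⟨X0, hP0, hU0, hA, hL0⟩ := h (Ed k d N) (IP k d N) (IU k d N) (IA k d N m0) Unit
    (M ^ 2) (by positivity)
    SP fP (fun p => ⌊(r - 1) * (p.1.1.card : ℝ) / 3⌋₊)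
    (TU k d N) (sU k d N M)
    (fun i => TA i.1.2.1 i.1.2.2)
    (fun _ => Pot k d N) (fun _ => (2 * k) ^ d * (k ^ 2) ^ d * (4 * M' ^ 4))
    SP_inj SP_ne (by
      have h1 : (∑ _i : Unit, (2 : ℝ) ^ ((2 * k) ^ d * (k ^ 2) ^ d * (4 * M' ^ 4)) *
          (1 - 1 / (2 * ((M ^ 2 : ℕ) : ℝ))) ^ ((Pot k d N).card)) ≤ Real.exp (-(M' : ℝ)) := by
        rw [Finset.univ_unique, Finset.sum_singleton]
        exact hsL
      have h2 : 12 * ((Fintype.card (Vx k d N) : ℝ) ^ 2 *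
          Real.exp (-((r - 1) / 6) + (2 * (k : ℝ)) ^ d)) < 1 / 4 := by linarith
      linarith)
  have hP : ∀ p : IP k d N, ((SP p).filter fun e => e ∈ X0 ∧ fP p e ∈ X0).card <
      3 * ⌊(r - 1) * (p.1.1.card : ℝ) / 3⌋₊ + 1 := by
    intro p; convert hP0 p
  have hU : ∀ i, ((TU k d N i).filter fun e => e ∈ X0).card < sU k d N M i + 1 := by
    intro i; convert hU0 i
  have hL : ∀ _i : Unit, (2 * k) ^ d * (k ^ 2) ^ d * (4 * M' ^ 4) ≤
      ((Pot k d N).filter fun e => e ∈ X0).card := by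
    intro i; convert hL0 i
  refine ⟨X0 ∩ Pot k d N, ⟨⟨inter_subset_right, ?_, ?_⟩, ?_, ?_, ?_⟩⟩
  · intro a z
    have h1 := hU (Sum.inl (a, z))
    have h2 : ((univ : Finset (Lab k d N)).filter fun b => (a, b) ∈ X0 ∩ Pot k d N ∧
        ∀ j, zc b j = z j).card ≤ 4 * (k ^ d * M) := by
      have h3 : ((univ : Finset (Lab k d N)).filter fun b => (a, b) ∈ X0 ∩ Pot k d N ∧
          ∀ j, zc b j = z j).card ≤
          ((TU k d N (Sum.inl (a, z))).filter fun e => e ∈ X0).card := by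
        apply card_le_card_of_injOn (fun b => (a, b))
        · intro b hb
          have hb' : b ∈ ((univ : Finset (Lab k d N)).filter fun b => (a, b) ∈ X0 ∩ Pot k d N ∧
            ∀ j, zc b j = z j) := by exact_mod_cast hb
          rw [mem_filter] at hb'
          have : (a, b) ∈ ((TU k d N (Sum.inl (a, z))).filter fun e => e ∈ X0) := by
            rw [mem_filter]
            refine ⟨?_, (mem_inter.mp hb'.2.1).1⟩
            simp only [TU, Sum.elim_inl, mem_filter, mem_univ, true_and]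
            exact hb'.2.2
          exact_mod_cast this
        · intro b _ b' _ hbb
          simp only [Prod.mk.injEq, true_and] at hbb
          exact hbb
      have h4 : sU k d N M (Sum.inl (a, z)) = 4 * (k ^ d * M) := rfl
      rw [h4] at h1
      omega
    have h5 : (((univ : Finset (Lab k d N)).filter fun b => (a, b) ∈ X0 ∩ Pot k d N ∧
        ∀ j, zc b j = z j).card : ℝ) ≤ 4 * ((k : ℝ) ^ d * M) := by exact_mod_cast h2
    calc _ ≤ 4 * ((k : ℝ) ^ d * M) * 2 ^ d := mul_le_mul_of_nonneg_right h5 (by positivity)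
      _ = _ := by rw [mul_pow]; ring
  · intro b α
    have h1 := hU (Sum.inr (b, α))
    have h2 : ((univ : Finset (Lab k d N)).filter fun a => (a, b) ∈ X0 ∩ Pot k d N ∧
        a.1 = α).card ≤ 4 * M := by
      have h3 : ((univ : Finset (Lab k d N)).filter fun a => (a, b) ∈ X0 ∩ Pot k d N ∧
          a.1 = α).card ≤
          ((TU k d N (Sum.inr (b, α))).filter fun e => e ∈ X0).card := by
        apply card_le_card_of_injOn (fun a => (a, b))
        · intro a ha'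
          have hb' : a ∈ ((univ : Finset (Lab k d N)).filter fun a => (a, b) ∈ X0 ∩ Pot k d N ∧
            a.1 = α) := by exact_mod_cast ha'
          rw [mem_filter] at hb'
          have : (a, b) ∈ ((TU k d N (Sum.inr (b, α))).filter fun e => e ∈ X0) := by
            rw [mem_filter]
            refine ⟨?_, (mem_inter.mp hb'.2.1).1⟩
            simp only [TU, Sum.elim_inr, mem_filter, mem_univ, true_and]
            exact hb'.2.2
          exact_mod_cast this
        · intro b _ b' _ hbb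
          simp only [Prod.mk.injEq, and_true] at hbb
          exact hbb
      have h4 : sU k d N M (Sum.inr (b, α)) = 4 * M := rfl
      rw [h4] at h1
      omega
    have h5 : (((univ : Finset (Lab k d N)).filter fun a => (a, b) ∈ X0 ∩ Pot k d N ∧
        a.1 = α).card : ℝ) ≤ 4 * (M : ℝ) := by exact_mod_cast h2
    calc _ ≤ 4 * (M : ℝ) * (2 * (k : ℝ)) ^ d := mul_le_mul_of_nonneg_right h5 (by positivity)
      _ = _ := by ring
  · have h1 := hL ()
    have h2 : ((Pot k d N).filter fun e => e ∈ X0) = X0 ∩ Pot k d N := by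
      ext e; rw [mem_filter, mem_inter, and_comm]
    rw [h2] at h1
    have h3 : (((2 * k) ^ d * (k ^ 2) ^ d * (4 * M' ^ 4) : ℕ) : ℝ) ≤
        ((X0 ∩ Pot k d N).card : ℝ) := by exact_mod_cast h1
    have h4 : 4 * (2 * (k : ℝ)) ^ d * (M : ℝ) * (Fintype.card (Vx k d N) : ℝ) =
        32 * (((2 * k) ^ d * (k ^ 2) ^ d * (4 * M' ^ 4) : ℕ) : ℝ) := by
      rw [card_Vx, hN, hMdef]
      push_cast
      have : ((k : ℝ) * k) = (k : ℝ) ^ 2 := by ring
      rw [this]
      ring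
    rw [h4]
    linarith
  · intro Z hZ
    by_contra hlt
    push Not at hlt
    obtain ⟨T', hT', hcard⟩ := exists_subset_card_eq (show 2 * Z.card + 1 ≤ (inn (X0 ∩ Pot k d N) Z).card from hlt)
    let v : Fin Z.card → Vx k d N := fun i => (Z.equivFin.symm i).1
    have hv : Function.Injective v := by
      intro i j hij
      exact Z.equivFin.symm.injective (Subtype.ext hij)
    let T : Finset (Fin Z.card × Fin Z.card) := univ.filter fun p =>
      ∃ e ∈ T', v p.1 = Sum.inl e.1 ∧ v p.2 = Sum.inr e.2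
    have hTA : TA v T = T' := by
      ext e
      simp only [TA, mem_filter, mem_univ, true_and, T]
      constructor
      · rintro ⟨p, ⟨e', he', h1, h2⟩, h3, h4⟩
        rw [h1, Sum.inl.injEq] at h3
        rw [h2, Sum.inr.injEq] at h4
        have : e' = e := Prod.ext h3 h4
        rw [← this]; exact he'
      · intro he
        have h1 := hT' he
        simp only [inn, mem_filter] at h1
        refine ⟨(Z.equivFin ⟨_, h1.2.1⟩, Z.equivFin ⟨_, h1.2.2⟩), ⟨e, he, ?_, ?_⟩, ?_, ?_⟩ <;>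
          simp [v]
    have h1 := hA ⟨⟨⟨Z.card, by omega⟩, (v, T)⟩, by
      show (TA v T).card = 2 * Z.card + 1
      rw [hTA, hcard]⟩
    apply h1
    show TA v T ⊆ X0
    rw [hTA]
    intro e he
    have h2 := hT' he
    simp only [inn, mem_filter, mem_inter] at h2
    exact h2.1.1
  · intro W φ hφ
    have := rigid_of r hρD hP W φ hφ
    exact this

theorem stmtX_of (h : StmtRnd) : StmtX := by
  intro k d m0 ρ ε L hd hk hρ hε
  have hk0 : 0 < k := by omega
  have hkR : (1 : ℝ) ≤ k := by exact_mod_cast hk0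
  set c : ℝ := (2 * (k : ℝ)) ^ d with hc
  have hc0 : 0 < c := by positivity
  set v : ℝ := 2 * ((k : ℝ) * k) ^ d with hv
  have hv1 : 1 ≤ v := by
    have : (1 : ℝ) ≤ ((k : ℝ) * k) ^ d := one_le_pow₀ (by nlinarith)
    linarith
  have hcardV : ∀ M : ℕ, (Fintype.card (Vx k d (M ^ 3)) : ℝ) = v * (M : ℝ) ^ 3 := by
    intro M; rw [card_Vx, hv]; push_cast; ring
  -- limits
  have hcast : Tendsto (fun m : ℕ => ((2 * m : ℕ) : ℝ)) atTop atTop := by
    apply tendsto_natCast_atTop_atTop.comp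
    exact tendsto_id.const_mul_atTop' (by norm_num)
  have lim1 : ∀ᶠ m : ℕ in atTop, 1 ≤ ρ * (4 * c * ((2 * m : ℕ) : ℝ)) := by
    have : Tendsto (fun m : ℕ => ρ * (4 * c * ((2 * m : ℕ) : ℝ))) atTop atTop := by
      apply Tendsto.const_mul_atTop hρ
      exact Tendsto.const_mul_atTop (by positivity) hcast
    exact this.eventually_ge_atTop 1
  have lim2 : ∀ᶠ m : ℕ in atTop, (Fintype.card (Vx k d ((2 * m) ^ 3)) : ℝ) ^ 2 *
      Real.exp (-((ρ * (4 * c * ((2 * m : ℕ) : ℝ)) - 1) / 6) + c) < 1 / 48 := by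
    have h1 : Tendsto (fun n : ℕ => (n : ℝ) ^ 6 * (Real.exp (-(ρ * (4 * c) / 6))) ^ n)
        atTop (𝓝 0) := by
      apply tendsto_pow_const_mul_const_pow_of_abs_lt_one
      rw [abs_of_pos (Real.exp_pos _)]
      rw [Real.exp_lt_one_iff]
      have : 0 < ρ * (4 * c) / 6 := by positivity
      linarith
    have h2 : Tendsto (fun m : ℕ => v ^ 2 * Real.exp (1 / 6 + c) *
        (((2 * m : ℕ) : ℝ) ^ 6 * (Real.exp (-(ρ * (4 * c) / 6))) ^ (2 * m))) atTop (𝓝 0) := by
      have h3 : Tendsto (fun m : ℕ => 2 * m) atTop atTop :=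
        tendsto_id.const_mul_atTop' (by norm_num)
      have := (h1.comp h3).const_mul (v ^ 2 * Real.exp (1 / 6 + c))
      rw [mul_zero] at this
      exact this
    have h4 := h2.eventually (gt_mem_nhds (show (0 : ℝ) < 1 / 48 by norm_num))
    filter_upwards [h4] with m hm
    refine lt_of_le_of_lt (le_of_eq ?_) hm
    rw [hcardV]
    rw [← Real.exp_nat_mul]
    have h5 : Real.exp (-((ρ * (4 * c * ((2 * m : ℕ) : ℝ)) - 1) / 6) + c) =
        Real.exp (1 / 6 + c) * Real.exp (((2 * m : ℕ) : ℝ) * -(ρ * (4 * c) / 6)) := by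
      rw [← Real.exp_add]; congr 1; ring
    rw [h5]; ring
  have lim3 : ∀ᶠ m : ℕ in atTop, (Fintype.card (IU k d ((2 * m) ^ 3)) : ℝ) *
      Real.exp (-((2 * m : ℕ) : ℝ)) < 1 / 4 := by
    have h1 : Tendsto (fun n : ℕ => (n : ℝ) ^ 3 * (Real.exp (-1)) ^ n) atTop (𝓝 0) := by
      apply tendsto_pow_const_mul_const_pow_of_abs_lt_one
      rw [abs_of_pos (Real.exp_pos _), Real.exp_lt_one_iff]
      norm_num
    have h2 : Tendsto (fun m : ℕ => (((k : ℝ) * k) ^ d * ((k : ℝ) ^ d + ((k : ℝ) * k) ^ d)) *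
        (((2 * m : ℕ) : ℝ) ^ 3 * (Real.exp (-1)) ^ (2 * m))) atTop (𝓝 0) := by
      have h3 : Tendsto (fun m : ℕ => 2 * m) atTop atTop :=
        tendsto_id.const_mul_atTop' (by norm_num)
      have := (h1.comp h3).const_mul (((k : ℝ) * k) ^ d * ((k : ℝ) ^ d + ((k : ℝ) * k) ^ d))
      rw [mul_zero] at this
      exact this
    have h4 := h2.eventually (gt_mem_nhds (show (0 : ℝ) < 1 / 4 by norm_num))
    filter_upwards [h4] with m hm
    refine lt_of_le_of_lt (le_of_eq ?_) hm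
    have h5 : Fintype.card (IU k d ((2 * m) ^ 3)) =
        ((k * k) ^ d * (2 * m) ^ 3) * k ^ d + ((k * k) ^ d * (2 * m) ^ 3) * (k * k) ^ d := by
      rw [Fintype.card_sum, Fintype.card_prod (Lab k d ((2 * m) ^ 3)) (Fin d → Fin k),
        Fintype.card_prod (Lab k d ((2 * m) ^ 3)) (Fin d → Fin k × Fin k), card_Lab]
      simp [Fintype.card_prod, Fintype.card_pi]
    rw [h5, ← Real.exp_nat_mul]
    have h6 : ((2 * m : ℕ) : ℝ) * -1 = -((2 * m : ℕ) : ℝ) := by ring
    rw [h6]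
    push_cast
    ring
  have lim4 : ∀ᶠ m : ℕ in atTop, ((m0 : ℝ) + 1) * (2 * ((k : ℝ) * k) ^ d) ^ m0 *
      2 ^ (m0 * m0) / ((2 * m : ℕ) : ℝ) ^ 2 < 1 / 4 := by
    have h1 : Tendsto (fun m : ℕ => ((m0 : ℝ) + 1) * (2 * ((k : ℝ) * k) ^ d) ^ m0 *
      2 ^ (m0 * m0) / ((2 * m : ℕ) : ℝ) ^ 2) atTop (𝓝 0) := by
      apply Tendsto.const_div_atTop
      exact (tendsto_pow_atTop (by norm_num)).comp hcast
    exact h1.eventually (gt_mem_nhds (show (0 : ℝ) < 1 / 4 by norm_num))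
  have lim5 : ∀ᶠ m : ℕ in atTop, Real.exp (-(m : ℝ)) < 1 / 4 := by
    have h1 : Tendsto (fun m : ℕ => Real.exp (-(m : ℝ))) atTop (𝓝 0) :=
      Real.tendsto_exp_neg_atTop_nhds_zero.comp tendsto_natCast_atTop_atTop
    exact h1.eventually (gt_mem_nhds (show (0 : ℝ) < 1 / 4 by norm_num))
  have lim6 : ∀ᶠ m : ℕ in atTop, L ≤ 4 * c * ((2 * m : ℕ) : ℝ) := by
    have : Tendsto (fun m : ℕ => 4 * c * ((2 * m : ℕ) : ℝ)) atTop atTop :=
      Tendsto.const_mul_atTop (by positivity) hcast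
    exact this.eventually_ge_atTop L
  have lim7 : ∀ᶠ m : ℕ in atTop, Real.log (Fintype.card (Vx k d ((2 * m) ^ 3)) : ℝ) ≤
      ε * (4 * c * ((2 * m : ℕ) : ℝ)) := by
    have h1 : Tendsto (fun n : ℕ => (n : ℝ) ^ 3 * (Real.exp (-(ε * (4 * c)))) ^ n)
        atTop (𝓝 0) := by
      apply tendsto_pow_const_mul_const_pow_of_abs_lt_one
      rw [abs_of_pos (Real.exp_pos _), Real.exp_lt_one_iff]
      have : 0 < ε * (4 * c) := by positivity
      linarith
    have h3 : Tendsto (fun m : ℕ => 2 * m) atTop atTop :=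
      tendsto_id.const_mul_atTop' (by norm_num)
    have h2 := (h1.comp h3).const_mul v
    rw [mul_zero] at h2
    have h4 := h2.eventually (gt_mem_nhds (show (0 : ℝ) < 1 by norm_num))
    filter_upwards [h4, eventually_gt_atTop 0] with m hm hm0
    have hm0R : (0 : ℝ) < ((2 * m : ℕ) : ℝ) := by
      have : 0 < 2 * m := by omega
      exact_mod_cast this
    rw [hcardV]
    rw [Real.log_le_iff_le_exp (by positivity)]
    simp only [Function.comp] at hm
    rw [← Real.exp_nat_mul] at hm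
    have h5 : Real.exp (((2 * m : ℕ) : ℝ) * -(ε * (4 * c))) =
        (Real.exp (ε * (4 * c * ((2 * m : ℕ) : ℝ))))⁻¹ := by
      rw [← Real.exp_neg]; congr 1; ring
    rw [h5] at hm
    have h6 := Real.exp_pos (ε * (4 * c * ((2 * m : ℕ) : ℝ)))
    have h7 : v * (((2 * m : ℕ) : ℝ) ^ 3 * (Real.exp (ε * (4 * c * ((2 * m : ℕ) : ℝ))))⁻¹) =
        (v * ((2 * m : ℕ) : ℝ) ^ 3) / Real.exp (ε * (4 * c * ((2 * m : ℕ) : ℝ))) := by
      rw [div_eq_mul_inv]; ring
    rw [h7, div_lt_one h6] at hm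
    exact hm.le
  obtain ⟨m, h1, h2, h3, h4, h5, h6, h7, h8⟩ := (lim1.and (lim2.and (lim3.and (lim4.and
    (lim5.and (lim6.and (lim7.and (eventually_gt_atTop 0)))))))).exists
  obtain ⟨X, hX⟩ := exists_goodX h k d m0 m ρ hd hk h8 h1 h2 h3 h4 h5
  have hm2 : 0 < 2 * m := by omega
  exact ⟨(2 * m) ^ 3, by positivity, 4 * c * ((2 * m : ℕ) : ℝ), h6, by
    have : (0 : ℝ) < ((2 * m : ℕ) : ℝ) := by exact_mod_cast hm2
    positivity, h7, X, hX⟩

end Pool.Agent.H548.LU
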