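import Pool.Agent.H548.LU.Stage

/-! Project LU: from the stages to the class-level statement. -/

namespace Pool.Agent.H548.LU

open Finset Classical

theorem isoRange {V : Type} {N : ℕ} {G : SimpleGraph (Fin N)} {X : SimpleGraph V} (e : G ↪g X) :
    Nonempty (G ≃g X.induce (((univ : Finset (Fin N)).map e.toEmbedding : Finset V) : Set V)) := by
  refine ⟨⟨⟨fun x => ⟨e x, by simp⟩, fun v => (by simpa using v.2 : ∃ x, e x = v.1).choose,
    ?_, ?_⟩, ?_⟩⟩
  · intro x
    have h : ∃ y, e y = e x := ⟨x, rfl⟩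
    exact e.injective h.choose_spec
  · intro v
    apply Subtype.ext
    have h : ∃ x, e x = v.1 := by simpa using v.2
    exact h.choose_spec
  · intro a b
    simp

theorem ncard_iso {V W : Type} {G : SimpleGraph V} {H : SimpleGraph W} (e : G ≃g H) :
    G.edgeSet.ncard = H.edgeSet.ncard := by
  rw [← Nat.card_coe_set_eq, ← Nat.card_coe_set_eq]
  exact Nat.card_congr e.mapEdgeSet

theorem ncard_edges_le {m : ℕ} (Z : SimpleGraph (Fin m)) : Z.edgeSet.ncard ≤ m * m := by
  have h1 : Z.edgeSet.ncard = Z.edgeFinset.card := by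
    rw [Set.ncard_eq_toFinset_card', SimpleGraph.edgeFinset]
  rw [h1]
  have h2 := Z.card_edgeFinset_le_card_choose_two
  rw [Fintype.card_fin, Nat.choose_two_right] at h2
  have h3 : m * (m - 1) / 2 ≤ m * m := by
    calc m * (m - 1) / 2 ≤ m * (m - 1) := Nat.div_le_self _ _
      _ ≤ m * m := Nat.mul_le_mul_left _ (Nat.sub_le _ _)
  omega

theorem ncard_mono {V : Type} [Fintype V] {G H : SimpleGraph V} (h : G ≤ H) :
    G.edgeSet.ncard ≤ H.edgeSet.ncard := by
  exact Set.ncard_le_ncard (SimpleGraph.edgeSet_mono h) (Set.toFinite _)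

structure Pack where
  t : ℕ
  m0 : ℕ
  st : Stage t m0

noncomputable instance (p : Pack) : Fintype p.st.V := p.st.fin

noncomputable def Pack.size (p : Pack) : ℕ := Fintype.card p.st.V

noncomputable def seq (h : ∀ t m0, Nonempty (Stage t m0)) : ℕ → Pack
  | 0 => ⟨0, 0, Classical.choice (h 0 0)⟩
  | n + 1 => ⟨(seq h n).t + 1, max (seq h n).m0 (seq h n).size, Classical.choice (h _ _)⟩

theorem seq_t (h : ∀ t m0, Nonempty (Stage t m0)) (n : ℕ) : (seq h n).t = n := by
  induction n with
  | zero => rfl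
  | succ n ih => simp only [seq, ih]

theorem seq_m0 (h : ∀ t m0, Nonempty (Stage t m0)) {i j : ℕ} (hij : i < j) :
    (seq h i).size ≤ (seq h j).m0 := by
  induction j with
  | zero => omega
  | succ j ih =>
    have h1 : (seq h (j + 1)).m0 = max (seq h j).m0 (seq h j).size := rfl
    rw [h1]
    rcases Nat.lt_succ_iff_lt_or_eq.mp hij with h2 | h2
    · exact le_trans (ih h2) (le_max_left _ _)
    · rw [h2]; exact le_max_right _ _

/-- the host class -/
def hostClass (h : ∀ t m0, Nonempty (Stage t m0)) : GraphClass where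
  mem _ G := ∃ n, Nonempty (G ↪g (seq h n).st.X)
  iso := by
    rintro n m G H ⟨e⟩ ⟨k, ⟨f⟩⟩
    exact ⟨k, ⟨e.symm.toEmbedding.trans f⟩⟩

/-- the guest class -/
def guestClass (h : ∀ t m0, Nonempty (Stage t m0)) : GraphClass where
  mem m Z := ∃ n, (Nonempty (Z ↪g (seq h n).st.X) ∧
      (Z.edgeSet.ncard : ℝ) ≤ (seq h n).st.κ * (m : ℝ)) ∨
    ∃ W S, (seq h n).st.Sp W S ∧ Nonempty (Z ≃g S.induce (W : Set (seq h n).st.V))
  iso := by
    rintro n m G H ⟨e⟩ ⟨k, hk⟩
    have hnm : n = m := by
      have := Fintype.card_congr e.toEquiv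
      simpa using this
    refine ⟨k, ?_⟩
    rcases hk with ⟨⟨f⟩, hf⟩ | ⟨W, S, hS, ⟨f⟩⟩
    · left
      refine ⟨⟨e.symm.toEmbedding.trans f⟩, ?_⟩
      rw [← ncard_iso e, ← hnm]
      exact hf
    · right
      exact ⟨W, S, hS, ⟨e.symm.trans f⟩⟩

theorem guest_ok (h : ∀ t m0, Nonempty (Stage t m0)) (n m : ℕ) (Z : SimpleGraph (Fin m))
    (hZ : (guestClass h).mem m Z) (hm : m ≤ (seq h n).size) :
    (Z.edgeSet.ncard : ℝ) ≤ (seq h n).st.κ * (m : ℝ) ∨
      ∃ W S, (seq h n).st.Sp W S ∧ Nonempty (Z ≃g S.induce (W : Set (seq h n).st.V)) := by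
  obtain ⟨k, hk⟩ := hZ
  have hκ2 := (seq h n).st.two_le
  have hκm := (seq h n).st.m0_le
  rcases lt_trichotomy k n with hkn | hkn | hkn
  · -- small guest
    left
    have hmk : m ≤ (seq h k).size := by
      rcases hk with ⟨⟨f⟩, hf⟩ | ⟨W, S, hS, ⟨f⟩⟩
      · have := Fintype.card_le_of_injective f f.injective
        simpa [Pack.size] using this
      · have h1 := Fintype.card_congr f.toEquiv
        have h2 : Fintype.card ((W : Set (seq h k).st.V)) ≤ Fintype.card (seq h k).st.V :=
          Fintype.card_subtype_le _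
        simp only [Fintype.card_fin] at h1
        have h3 : (seq h k).size = Fintype.card (seq h k).st.V := rfl
        rw [h3]
        calc m = _ := h1
          _ ≤ _ := h2
    have h1 : m ≤ (seq h n).m0 := le_trans hmk (seq_m0 h hkn)
    have h2 : (m : ℝ) ≤ (seq h n).st.κ := le_trans (by exact_mod_cast h1) hκm
    have h3 : (Z.edgeSet.ncard : ℝ) ≤ (m : ℝ) * m := by exact_mod_cast ncard_edges_le Z
    exact le_trans h3 (mul_le_mul_of_nonneg_right h2 (Nat.cast_nonneg _))
  · subst hkn
    rcases hk with ⟨⟨f⟩, hf⟩ | hk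
    · exact Or.inl hf
    · exact Or.inr hk
  · -- guest from a later stage
    left
    have h1 : m ≤ (seq h k).m0 := le_trans hm (seq_m0 h hkn)
    have h4 : Z.edgeSet.ncard ≤ 2 * m := by
      rcases hk with ⟨⟨f⟩, hf⟩ | ⟨W, S, hS, ⟨f⟩⟩
      · obtain ⟨g⟩ := isoRange f
        have h2 := (seq h k).st.small ((univ : Finset (Fin m)).map f.toEmbedding)
          (by simpa using h1)
        rw [ncard_iso g]
        simpa using h2
      · have hc : m = W.card := by
          have := Fintype.card_congr f.toEquiv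
          simpa using this
        have h2 := (seq h k).st.small W (by rw [← hc]; exact h1)
        have h3 : (S.induce (W : Set (seq h k).st.V)).edgeSet.ncard ≤
            ((seq h k).st.X.induce (W : Set (seq h k).st.V)).edgeSet.ncard := by
          apply ncard_mono
          intro a b hab
          exact (seq h k).st.sp_le W S hS hab
        rw [ncard_iso f, hc]
        exact le_trans h3 h2
    have h5 : (Z.edgeSet.ncard : ℝ) ≤ 2 * (m : ℝ) := by exact_mod_cast h4
    exact le_trans h5 (mul_le_mul_of_nonneg_right hκ2 (Nat.cast_nonneg _))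

/-- the local covering number of the hosts is at most 3 -/
theorem cl_le (h : ∀ t m0, Nonempty (Stage t m0)) {N : ℕ} (G : SimpleGraph (Fin N))
    (hG : (hostClass h).mem N G) : cl (guestClass h) G ≤ 3 := by
  obtain ⟨n, ⟨e⟩⟩ := hG
  apply sInf_le
  refine ⟨3, rfl, ?_⟩
  by_cases hd : (G.edgeSet.ncard : ℝ) ≤ (seq h n).st.κ * (N : ℝ)
  · refine ⟨1, one_pos, ⟨fun _ => N, fun _ => G, fun _ => ⟨n, Or.inl ⟨⟨e⟩, hd⟩⟩, fun _ x => x,
      fun _ x y hxy => hxy, fun u v huv => ⟨0, u, v, huv, rfl, rfl⟩⟩, ?_, ?_⟩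
    · intro i x y hxy; exact hxy
    · intro v
      have : {p : (i : Fin 1) × Fin N | p.2 = v} ⊆ {⟨0, v⟩} := by
        rintro ⟨i, x⟩ hx
        have : i = 0 := Subsingleton.elim _ _
        subst this
        simp only [Set.mem_ofPred_eq] at hx
        simp [hx]
      calc _ ≤ ({⟨0, v⟩} : Set ((i : Fin 1) × Fin N)).ncard :=
            Set.ncard_le_ncard this (Set.toFinite _)
        _ = 1 := Set.ncard_singleton _
        _ ≤ 3 := by norm_num
  · push Not at hd
    obtain ⟨g⟩ := isoRange e
    set U : Finset (seq h n).st.V := (univ : Finset (Fin N)).map e.toEmbedding with hU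
    have hUc : U.card = N := by simp [hU]
    obtain ⟨r, W, S, hSp, hWU, hcov, hloc⟩ := (seq h n).st.cover U
      (by rw [hUc, ← ncard_iso g]; exact hd)
    -- the embedding of the i-th guest
    let w : (i : Fin r) → Fin (W i).card → (seq h n).st.V :=
      fun i x => ((W i).equivFin.symm x).1
    have hwW : ∀ i x, w i x ∈ W i := fun i x => ((W i).equivFin.symm x).2
    have hwinj : ∀ i, Function.Injective (w i) := by
      intro i x y hxy
      exact (W i).equivFin.symm.injective (Subtype.ext hxy)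
    let φ : (i : Fin r) → Fin (W i).card → Fin N :=
      fun i x => g.symm ⟨w i x, by exact_mod_cast hWU i (hwW i x)⟩
    have hφ : ∀ i x, (g (φ i x)).1 = w i x := by
      intro i x
      simp only [φ, RelIso.apply_symm_apply]
    have hr : 0 < r := by
      by_contra hr0
      have hr0 : r = 0 := by omega
      subst hr0
      have hne : G.edgeSet.ncard ≠ 0 := by
        intro h0
        rw [h0] at hd
        have : (0 : ℝ) ≤ (seq h n).st.κ * (N : ℝ) :=
          mul_nonneg (le_trans (by norm_num) (seq h n).st.two_le) (Nat.cast_nonneg _)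
        simp at hd
        linarith
      have : G.edgeSet.Nonempty := Set.nonempty_of_ncard_ne_zero hne
      obtain ⟨s, hs⟩ := this
      induction s using Sym2.ind with
      | _ x y =>
        have hxy : G.Adj x y := hs
        have h1 := (g.map_rel_iff (a := x) (b := y)).mpr hxy
        obtain ⟨i, _⟩ := hcov (g x).1 (by exact_mod_cast (g x).2) (g y).1
          (by exact_mod_cast (g y).2) h1
        exact i.elim0
    refine ⟨r, hr, ⟨fun i => (W i).card, fun i => (S i).comap (w i), ?_, φ, ?_, ?_⟩, ?_, ?_⟩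
    · intro i
      refine ⟨n, Or.inr ⟨W i, S i, hSp i, ⟨⟨?_, ?_⟩⟩⟩⟩
      · exact (W i).equivFin.symm
      · intro a b
        simp [w]
    · intro i x y hxy
      have h1 : (S i).Adj (w i x) (w i y) := hxy
      have h2 := (seq h n).st.sp_le _ _ (hSp i) h1
      rw [← g.map_rel_iff]
      show (seq h n).st.X.Adj (g (φ i x)).1 (g (φ i y)).1
      rw [hφ, hφ]
      exact h2
    · intro u v huv
      have h1 := (g.map_rel_iff (a := u) (b := v)).mpr huv
      obtain ⟨i, hui, hvi, hS⟩ := hcov (g u).1 (by exact_mod_cast (g u).2) (g v).1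
        (by exact_mod_cast (g v).2) h1
      refine ⟨i, (W i).equivFin ⟨(g u).1, hui⟩, (W i).equivFin ⟨(g v).1, hvi⟩, ?_, ?_, ?_⟩
      · show (S i).Adj (w i _) (w i _)
        simp only [w, Equiv.symm_apply_apply]
        exact hS
      · apply g.injective
        apply Subtype.ext
        rw [hφ]
        simp only [w, Equiv.symm_apply_apply]
      · apply g.injective
        apply Subtype.ext
        rw [hφ]
        simp only [w, Equiv.symm_apply_apply]
    · intro i x y hxy
      have h1 : (g (φ i x)).1 = (g (φ i y)).1 := by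
        have : φ i x = φ i y := hxy
        rw [this]
      rw [hφ, hφ] at h1
      exact hwinj i h1
    · intro v
      show Set.ncard {p : (i : Fin r) × Fin (W i).card | φ p.1 p.2 = v} ≤ 3
      have h1 := hloc (g v).1
      have h2 : Set.ncard {p : (i : Fin r) × Fin (W i).card | φ p.1 p.2 = v} ≤
          (((univ : Finset (Fin r)).filter fun i => (g v).1 ∈ W i : Finset (Fin r)) :
            Set (Fin r)).ncard := by
        apply Set.ncard_le_ncard_of_injOn (fun p => p.1)
        · rintro ⟨i, x⟩ hx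
          simp only [Set.mem_ofPred_eq] at hx
          have h3 := hφ i x
          rw [hx] at h3
          simp only [coe_filter, mem_univ, true_and, Set.mem_ofPred_eq]
          rw [h3]
          exact hwW i x
        · rintro ⟨i, x⟩ hx ⟨j, y⟩ hy hij
          simp only at hij
          subst hij
          simp only [Set.mem_ofPred_eq] at hx hy
          have h3 := hφ i x
          have h4 := hφ i y
          rw [hx] at h3
          rw [hy] at h4
          have : x = y := hwinj i (by rw [← h3, ← h4])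
          rw [this]
      rw [Set.ncard_coe_finset] at h2
      exact le_trans h2 h1

/-- the union covering number of the n-th host is larger than n -/
theorem cu_gt (h : ∀ t m0, Nonempty (Stage t m0)) (n : ℕ) :
    ∃ (N : ℕ) (G : SimpleGraph (Fin N)), (hostClass h).mem N G ∧
      (n : ℕ∞) ≤ cu (guestClass h) G := by
  let eq : Fin (Fintype.card (seq h n).st.V) ≃ (seq h n).st.V := (Fintype.equivFin _).symm
  let G : SimpleGraph (Fin (Fintype.card (seq h n).st.V)) := (seq h n).st.X.comap eq
  let g : G ≃g (seq h n).st.X := ⟨eq, by intro a b; rfl⟩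
  refine ⟨_, G, ⟨n, ⟨g.toEmbedding⟩⟩, ?_⟩
  apply le_sInf
  rintro x ⟨t, ht, rfl, c, hc⟩
  by_contra hlt
  push Not at hlt
  have hlt : t < n := by exact_mod_cast hlt
  -- layers
  choose r m Z hZmem hiso using c.mem
  have f : ∀ i, c.G i ≃g disjUnion (Z i) := fun i => (hiso i).some
  let lay : Fin t → Layer (seq h n).st.X := fun i =>
    { r := r i
      n := m i
      Z := Z i
      φ := fun j x => g (c.φ i ((f i).symm ⟨j, x⟩))
      hom := by
        intro j x y hxy
        rw [g.map_rel_iff]
        apply c.hom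
        rw [(f i).symm.map_rel_iff]
        exact ⟨j, x, y, rfl, rfl, hxy⟩
      inj := by
        rintro ⟨j, x⟩ ⟨j', x'⟩ hxx
        simp only at hxx
        have h1 := g.injective hxx
        have h2 := hc i h1
        exact (f i).symm.injective h2 }
  let emp : Layer (seq h n).st.X :=
    { r := 0
      n := fun i => i.elim0
      Z := fun i => i.elim0
      φ := fun i => i.elim0
      hom := fun i => i.elim0
      inj := by rintro ⟨i, _⟩; exact i.elim0 }
  let Ly : Fin (seq h n).t → Layer (seq h n).st.X := fun ℓ =>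
    if hl : ℓ.1 < t then lay ⟨ℓ.1, hl⟩ else emp
  obtain ⟨u, v, huv, hno⟩ := (seq h n).st.lower Ly (by
    intro ℓ
    by_cases hl : ℓ.1 < t
    · have hLy : Ly ℓ = lay ⟨ℓ.1, hl⟩ := by simp only [Ly, dif_pos hl]
      rw [hLy]
      intro j
      apply guest_ok h n _ _ (hZmem _ _)
      have hinj : Function.Injective (fun x => (lay ⟨ℓ.1, hl⟩).φ j x) := by
        intro x y hxy
        have := (lay ⟨ℓ.1, hl⟩).inj (a₁ := ⟨j, x⟩) (a₂ := ⟨j, y⟩) hxy
        simpa using this
      have := Fintype.card_le_of_injective _ hinj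
      simpa [Pack.size] using this
    · have hLy : Ly ℓ = emp := by simp only [Ly, dif_neg hl]
      rw [hLy]
      intro j
      exact j.elim0)
  have h1 : G.Adj (g.symm u) (g.symm v) := by
    rw [g.symm.map_rel_iff]; exact huv
  obtain ⟨i, x, y, hxy, hx, hy⟩ := c.surj _ _ h1
  have hi : i.1 < (seq h n).t := by rw [seq_t]; omega
  apply hno ⟨i.1, hi⟩
  have hLy : Ly ⟨i.1, hi⟩ = lay i := by
    have : i.1 < t := i.2
    simp only [Ly, dif_pos this]
  rw [hLy]
  have h2 := ((f i).map_rel_iff (a := x) (b := y)).mpr hxy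
  obtain ⟨j, a, b, ha, hb, hab⟩ := h2
  refine ⟨j, a, b, hab, ?_, ?_⟩
  · show g (c.φ i ((f i).symm ⟨j, a⟩)) = u
    have : (f i).symm ⟨j, a⟩ = x := by
      rw [← ha]; simp
    rw [this, hx]; simp
  · show g (c.φ i ((f i).symm ⟨j, b⟩)) = v
    have : (f i).symm ⟨j, b⟩ = y := by
      rw [← hb]; simp
    rw [this, hy]; simp

theorem class_level (h : ∀ t m0, Nonempty (Stage t m0)) :
    ∃ 𝓗 C : GraphClass, 𝓗.Hereditary ∧ 𝓗.Bipartite ∧ clClass C 𝓗 ≤ 3 ∧ cuClass C 𝓗 = ⊤ := by
  refine ⟨hostClass h, guestClass h, ?_, ?_, ?_, ?_⟩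
  · rintro n G ⟨k, ⟨e⟩⟩ m H ⟨f⟩
    exact ⟨k, ⟨f.trans e⟩⟩
  · rintro n G ⟨k, ⟨e⟩⟩
    obtain ⟨c⟩ := (seq h k).st.col
    exact ⟨c.comp e.toHom⟩
  · apply iSup_le
    intro N
    apply iSup_le
    intro H
    apply iSup_le
    intro hH
    exact cl_le h H hH
  · rw [ENat.eq_top_iff_forall_ge]
    intro n
    obtain ⟨N, G, hG, hn⟩ := cu_gt h n
    refine le_trans hn ?_
    exact le_iSup_of_le N (le_iSup_of_le G (le_iSup_of_le hG le_rfl))

end Pool.Agent.H548.LU
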