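import Mathlib

/-!
Project LU (MP_1da87e_co, full answer): union versus local covering numbers.
Definitions and the exact statements of the parts.  Proofs: notes.md in this folder.
-/

namespace Pool.Agent.H548.LU

open Finset Classical

noncomputable section

/-- labels: `d` levels, each with a pair of indices in `Fin k`, and a copy index -/
abbrev Lab (k d N : ℕ) : Type := (Fin d → Fin k × Fin k) × Fin N
/-- vertices of the host: side A (`inl`) and side B (`inr`) -/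
abbrev Vx (k d N : ℕ) : Type := Lab k d N ⊕ Lab k d N
/-- (a,b): a possible edge between `inl a` and `inr b` -/
abbrev Ed (k d N : ℕ) : Type := Lab k d N × Lab k d N

/-- the index of the B-vertex `b` at level `j` -/
def zc {k d N : ℕ} (b : Lab k d N) (j : Fin d) : Fin k := (b.1 j).1

/-- potential edges: at each level the index of `b` is one of the two indices of `a` -/
def Pot (k d N : ℕ) : Finset (Ed k d N) :=
  univ.filter fun e => ∀ j, zc e.2 j = (e.1.1 j).1 ∨ zc e.2 j = (e.1.1 j).2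

/-- edges of `X` inside the vertex set `W` -/
def inn {k d N : ℕ} (X : Finset (Ed k d N)) (W : Finset (Vx k d N)) : Finset (Ed k d N) :=
  X.filter fun e => Sum.inl e.1 ∈ W ∧ Sum.inr e.2 ∈ W

/-- the bipartite graph with edge set `X` -/
def gr {k d N : ℕ} (X : Finset (Ed k d N)) : SimpleGraph (Vx k d N) where
  Adj u v := (∃ e ∈ X, u = Sum.inl e.1 ∧ v = Sum.inr e.2) ∨
    (∃ e ∈ X, v = Sum.inl e.1 ∧ u = Sum.inr e.2)
  symm := ⟨by
    intro u v h
    rcases h with h | h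
    · exact Or.inr h
    · exact Or.inl h⟩
  loopless := ⟨by
    intro u h
    rcases h with ⟨e, _, h1, h2⟩ | ⟨e, _, h1, h2⟩ <;> rw [h1] at h2 <;> cases h2⟩

/-- the vertices having index `i` at level `j` -/
def Wset {k d N : ℕ} (j : Fin d) (i : Fin k) : Finset (Vx k d N) :=
  univ.filter fun v =>
    (∃ a : Lab k d N, v = Sum.inl a ∧ ((a.1 j).1 = i ∨ (a.1 j).2 = i)) ∨
    (∃ b : Lab k d N, v = Sum.inr b ∧ zc b j = i)

/-- upper degree bounds for `X`, cell by cell -/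
structure DegX (k d N : ℕ) (D : ℝ) (X : Finset (Ed k d N)) : Prop where
  sub : X ⊆ Pot k d N
  degA : ∀ (a : Lab k d N) (z : Fin d → Fin k),
    ((univ.filter fun b : Lab k d N => (a, b) ∈ X ∧ ∀ j, zc b j = z j).card : ℝ) * 2 ^ d ≤ D
  degB : ∀ (b : Lab k d N) (α : Fin d → Fin k × Fin k),
    ((univ.filter fun a : Lab k d N => (a, b) ∈ X ∧ a.1 = α).card : ℝ) * (2 * (k : ℝ)) ^ d ≤ D

/-- all properties of the random host that are used -/
structure GoodX (k d N m0 : ℕ) (D ρ : ℝ) (X : Finset (Ed k d N)) : Prop extends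
    DegX k d N D X where
  many : D * (Fintype.card (Vx k d N) : ℝ) ≤ 32 * (X.card : ℝ)
  small : ∀ Z : Finset (Vx k d N), Z.card ≤ m0 → (inn X Z).card ≤ 2 * Z.card
  rigid : ∀ (W : Finset (Vx k d N)) (φ : Vx k d N → Vx k d N), Set.InjOn φ (W : Set (Vx k d N)) →
    (((inn X W).filter fun e => ¬ (φ (Sum.inl e.1) = Sum.inl e.1 ∧ φ (Sum.inr e.2) = Sum.inr e.2) ∧
      (gr X).Adj (φ (Sum.inl e.1)) (φ (Sum.inr e.2))).card : ℝ) ≤ ρ * D * W.card

/-- data of a layer at a vertex `v`: (label of the part containing v, preimage of v, type);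
type `none`: not in a special part, `some none`: in a part of type h,
`some (some j)`: in a part of type g with level `j` -/
abbrev Cell (k d N : ℕ) : Type := Vx k d N × Vx k d N × Option (Option (Fin d))

/-- the vertex set of the guest whose part contains `v` -/
def fib {k d N : ℕ} (f : Vx k d N → Cell k d N) (v : Vx k d N) : Finset (Vx k d N) :=
  (univ.filter fun u => (f u).1 = (f v).1).image fun u => (f u).2.1

/-- the literal of a layer at the edge `e` -/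
def lit {k d N : ℕ} (f : Vx k d N → Cell k d N) (e : Ed k d N) :
    Option (Finset (Vx k d N) × Bool) :=
  if (f (Sum.inl e.1)).1 = (f (Sum.inr e.2)).1 ∧ (f (Sum.inl e.1)).2.1 = Sum.inl e.1 ∧
      (f (Sum.inr e.2)).2.1 = Sum.inr e.2 then
    match (f (Sum.inl e.1)).2.2 with
    | none => none
    | some none => some (fib f (Sum.inl e.1), true)
    | some (some j) => some (fib f (Sum.inl e.1) ∩ Wset j (zc e.2 j), false)
  else none

/-- properties of the random bits -/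
structure GoodBeta (k d N t : ℕ) (D ρ₁ ρ₂ m : ℝ) (X : Finset (Ed k d N))
    (β : Finset (Vx k d N) → Ed k d N → Bool) : Prop where
  quasi : ∀ W M : Finset (Vx k d N), M ⊆ W →
    ρ₂ * D * (W.card : ℝ) < ((inn X W \ inn X M).card : ℝ) →
    ρ₁ * D * (W.card : ℝ) < (((inn X W \ inn X M).filter fun e => β W e = true).card : ℝ)
  many : ∀ data : Fin t → Vx k d N → Cell k d N,
    m ≤ ((X.filter fun e => ∀ ℓ W c, lit (data ℓ) e = some (W, c) → β W e = c →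
      ∃ ℓ', lit (data ℓ') e = some (W, !c)).card : ℝ)

/-- level `j` is bad for the vertex set `U` -/
def Bad {k d N : ℕ} (X : Finset (Ed k d N)) (U : Finset (Vx k d N)) (j : Fin d) (D ρ₂ τ : ℝ) :
    Prop :=
  ∃ (C : Finset (Fin k)) (M : Fin k → Finset (Vx k d N)),
    (∀ i ∈ C, M i ⊆ U ∩ Wset j i) ∧
    (∀ i ∈ C, ∀ i' ∈ C, i ≠ i' → Disjoint (M i) (M i')) ∧
    (∀ i ∈ C, ((inn X (U ∩ Wset j i)).card : ℝ) - ((inn X (M i)).card : ℝ) ≤
      ρ₂ * D * ((U ∩ Wset j i).card : ℝ)) ∧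
    τ * ((inn X U).card : ℝ) ≤ ∑ i ∈ C, ((inn X (U ∩ Wset j i)).card : ℝ)

/-- special guests: vertex set and edge set -/
def Special {k d N : ℕ} (X : Finset (Ed k d N)) (β : Finset (Vx k d N) → Ed k d N → Bool)
    (lev : Finset (Vx k d N) → Fin d) (κ : ℝ) (W : Finset (Vx k d N)) (S : Finset (Ed k d N)) :
    Prop :=
  (κ * (W.card : ℝ) < ((inn X W).card : ℝ) ∧
    S = (inn X W).filter fun e => β (W ∩ Wset (lev W) (zc e.2 (lev W))) e = false) ∨
  S = (inn X W).filter fun e => β W e = true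

/-- a layer in the host `H`: vertex-disjoint copies of guests -/
structure Layer {V : Type} (H : SimpleGraph V) where
  r : ℕ
  n : Fin r → ℕ
  Z : ∀ i, SimpleGraph (Fin (n i))
  φ : ∀ i, Fin (n i) → V
  hom : ∀ i x y, (Z i).Adj x y → H.Adj (φ i x) (φ i y)
  inj : Function.Injective (fun p : (i : Fin r) × Fin (n i) => φ p.1 p.2)

/-- the edge uv is covered by the layer -/
def Layer.Covers {V : Type} {H : SimpleGraph V} (L : Layer H) (u v : V) : Prop :=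
  ∃ i x y, (L.Z i).Adj x y ∧ L.φ i x = u ∧ L.φ i y = v

/-! ### Part A: random bits, abstract form -/
def StmtBits : Prop :=
  ∀ (Ad E ι : Type) [Fintype Ad] [Fintype E] [Fintype ι]
    (ED : ι → Finset E) (Lit : ι → E → Finset (Ad × Bool)) (s t : ι → ℕ),
    (∀ i e, (Lit i e).card ≤ t i) →
    (∀ i e w, ¬ ((w, true) ∈ Lit i e ∧ (w, false) ∈ Lit i e)) →
    (∑ i, (2 : ℝ) ^ (s i) * (1 - (1 / 2 : ℝ) ^ (t i + 1)) ^ ((ED i).card) < 1) →
    ∃ β : Ad → E → Bool, ∀ i,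
      s i ≤ ((ED i).filter fun e => ∀ p ∈ Lit i e, β p.1 e ≠ p.2).card

/-! ### Part B: random edge set, abstract form -/
def StmtRnd : Prop :=
  ∀ (E ιP ιU ιA ιL : Type) [Fintype E] [Fintype ιP] [Fintype ιU] [Fintype ιA] [Fintype ιL]
    (q : ℕ) (_ : 0 < q)
    (SP : ιP → Finset E) (f : ιP → E → E) (sP : ιP → ℕ)
    (TU : ιU → Finset E) (sU : ιU → ℕ)
    (TA : ιA → Finset E)
    (TL : ιL → Finset E) (sL : ιL → ℕ),
    (∀ i, Set.InjOn (f i) (SP i : Set E)) →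
    (∀ i, ∀ e ∈ SP i, f i e ≠ e) →
    (∑ i, 3 * (1 / 2 : ℝ) ^ (sP i) * (1 + 1 / (q : ℝ) ^ 2) ^ ((SP i).card)) +
    (∑ i, (1 / 2 : ℝ) ^ (sU i) * (1 + 1 / (q : ℝ)) ^ ((TU i).card)) +
    (∑ i, (1 / (q : ℝ)) ^ ((TA i).card)) +
    (∑ i, (2 : ℝ) ^ (sL i) * (1 - 1 / (2 * (q : ℝ))) ^ ((TL i).card)) < 1 →
    ∃ X : Finset E,
      (∀ i, ((SP i).filter fun e => e ∈ X ∧ f i e ∈ X).card < 3 * sP i + 1) ∧
      (∀ i, ((TU i).filter fun e => e ∈ X).card < sU i + 1) ∧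
      (∀ i, ¬ (TA i ⊆ X)) ∧
      (∀ i, sL i ≤ ((TL i).filter fun e => e ∈ X).card)

/-! ### Part C: the random host -/
def StmtX : Prop :=
  ∀ (k d m0 : ℕ) (ρ ε L : ℝ), 0 < d → 2 * d ≤ k → 0 < ρ → 0 < ε →
    ∃ N : ℕ, 0 < N ∧ ∃ D : ℝ, L ≤ D ∧ 0 < D ∧
      Real.log (Fintype.card (Vx k d N) : ℝ) ≤ ε * D ∧
      ∃ X : Finset (Ed k d N), GoodX k d N m0 D ρ X

/-! ### Part D: the bits for the host -/
def StmtBeta : Prop :=
  ∀ (t d : ℕ) (ρ₁ ρ₂ : ℝ), 0 < t → 0 < ρ₁ → 16 * ρ₁ ≤ ρ₂ →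
    ∃ ε : ℝ, 0 < ε ∧ ∃ L : ℝ, ∀ (k N : ℕ) (D : ℝ) (X : Finset (Ed k d N)),
      0 < Fintype.card (Vx k d N) → L ≤ D → 0 < D →
      Real.log (Fintype.card (Vx k d N) : ℝ) ≤ ε * D →
      D * (Fintype.card (Vx k d N) : ℝ) ≤ 32 * (X.card : ℝ) →
      ∃ β, GoodBeta k d N t D ρ₁ ρ₂ (D * (Fintype.card (Vx k d N) : ℝ) / 2 ^ (t + 8)) X β

/-! ### Part E: the robust level lemma -/
def StmtRobust : Prop :=
  ∀ (δ τ : ℝ), 0 < δ → 0 < τ → τ ≤ 1 →
    ∃ d : ℕ, 0 < d ∧ ∃ ρ₂ : ℝ, 0 < ρ₂ ∧ ∀ (k N : ℕ) (D : ℝ) (X : Finset (Ed k d N)),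
      0 < D → DegX k d N D X → ∀ U : Finset (Vx k d N),
      δ * D * (U.card : ℝ) < ((inn X U).card : ℝ) → ∃ j : Fin d, ¬ Bad X U j D ρ₂ τ

/-! ### Part F: no cover by t layers -/
def StmtFinal : Prop :=
  ∀ (t k d N m0 : ℕ) (D ρ₁ ρ₂ δ τ : ℝ) (X : Finset (Ed k d N))
    (β : Finset (Vx k d N) → Ed k d N → Bool) (lev : Finset (Vx k d N) → Fin d),
    0 < Fintype.card (Vx k d N) → 0 < D → 0 ≤ ρ₁ → 0 ≤ ρ₂ → 0 ≤ δ → 0 ≤ τ →
    GoodX k d N m0 D ρ₁ X →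
    GoodBeta k d N t D ρ₁ ρ₂ (D * (Fintype.card (Vx k d N) : ℝ) / 2 ^ (t + 8)) X β →
    (∀ U : Finset (Vx k d N), δ * D * (U.card : ℝ) < ((inn X U).card : ℝ) →
      ¬ Bad X U (lev U) D ρ₂ τ) →
    (t : ℝ) * δ + t * ρ₁ + (t : ℝ) ^ 2 * τ < 1 / 2 ^ (t + 8) →
    ∀ Ly : Fin t → Layer (gr X),
      (∀ ℓ i, (((Ly ℓ).Z i).edgeSet.ncard : ℝ) ≤ δ * D * ((Ly ℓ).n i : ℝ) ∨
        ∃ W S, Special X β lev (δ * D) W S ∧
          Nonempty ((Ly ℓ).Z i ≃g (gr S).induce (W : Set (Vx k d N)))) →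
      ∃ e ∈ X, ∀ ℓ, ¬ (Ly ℓ).Covers (Sum.inl e.1) (Sum.inr e.2) ∧
        ¬ (Ly ℓ).Covers (Sum.inr e.2) (Sum.inl e.1)

end

end Pool.Agent.H548.LU
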