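import Pool.Agent.H548.LU.Defs

/-! Project LU: the stage structure and the class-level definitions. -/

namespace Pool.Agent.H548.LU

open Finset Classical

/-- one stage of the construction -/
structure Stage (t m0 : ℕ) where
  V : Type
  fin : Fintype V
  X : SimpleGraph V
  κ : ℝ
  Sp : Finset V → SimpleGraph V → Prop
  col : X.Colorable 2
  m0_le : (m0 : ℝ) ≤ κ
  two_le : 2 ≤ κ
  small : ∀ Z : Finset V, Z.card ≤ m0 →
    (X.induce (Z : Set V)).edgeSet.ncard ≤ 2 * Z.card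
  sp_le : ∀ W S, Sp W S → S ≤ X
  cover : ∀ U : Finset V, κ * (U.card : ℝ) < ((X.induce (U : Set V)).edgeSet.ncard : ℝ) →
    ∃ (r : ℕ) (W : Fin r → Finset V) (S : Fin r → SimpleGraph V),
      (∀ i, Sp (W i) (S i)) ∧ (∀ i, W i ⊆ U) ∧
      (∀ u ∈ U, ∀ v ∈ U, X.Adj u v → ∃ i, u ∈ W i ∧ v ∈ W i ∧ (S i).Adj u v) ∧
      (∀ v, ((univ : Finset (Fin r)).filter fun i => v ∈ W i).card ≤ 3)
  lower : ∀ Ly : Fin t → Layer X,
    (∀ ℓ i, (((Ly ℓ).Z i).edgeSet.ncard : ℝ) ≤ κ * ((Ly ℓ).n i : ℝ) ∨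
      ∃ W S, Sp W S ∧ Nonempty ((Ly ℓ).Z i ≃g S.induce (W : Set V))) →
    ∃ u v, X.Adj u v ∧ ∀ ℓ, ¬ (Ly ℓ).Covers u v

/-! ### The notions of the problem -/

/-- A graph class: a set of finite simple graphs, closed under isomorphism.  Every finite graph is
isomorphic to a graph on some `Fin n`, so a class is given by its members on the sets `Fin n`. -/
structure GraphClass where
  mem : (n : ℕ) → SimpleGraph (Fin n) → Prop
  iso : ∀ {n m : ℕ} (G : SimpleGraph (Fin n)) (H : SimpleGraph (Fin m)),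
    Nonempty (G ≃g H) → mem n G → mem m H

/-- closed under taking induced subgraphs -/
def GraphClass.Hereditary (C : GraphClass) : Prop :=
  ∀ (n : ℕ) (G : SimpleGraph (Fin n)), C.mem n G →
    ∀ (m : ℕ) (H : SimpleGraph (Fin m)), Nonempty (H ↪g G) → C.mem m H

/-- all members are bipartite -/
def GraphClass.Bipartite (C : GraphClass) : Prop :=
  ∀ (n : ℕ) (G : SimpleGraph (Fin n)), C.mem n G → G.Colorable 2

/-- the disjoint union of the graphs `Z i` -/
def disjUnion {r : ℕ} {m : Fin r → ℕ} (Z : (i : Fin r) → SimpleGraph (Fin (m i))) :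
    SimpleGraph ((i : Fin r) × Fin (m i)) where
  Adj p q := ∃ (i : Fin r) (x y : Fin (m i)), p = ⟨i, x⟩ ∧ q = ⟨i, y⟩ ∧ (Z i).Adj x y
  symm := ⟨by
    rintro p q ⟨i, x, y, h1, h2, h3⟩
    exact ⟨i, y, x, h2, h1, h3.symm⟩⟩
  loopless := ⟨by
    rintro p ⟨i, x, y, h1, h2, h3⟩
    rw [h1] at h2
    have : x = y := by
      cases h2; rfl
    rw [this] at h3
    exact (Z i).loopless.irrefl _ h3⟩

/-- the class of all vertex-disjoint unions of graphs in `C` -/
def GraphClass.union (C : GraphClass) : GraphClass where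
  mem n K := ∃ (r : ℕ) (m : Fin r → ℕ) (Z : (i : Fin r) → SimpleGraph (Fin (m i))),
    (∀ i, C.mem (m i) (Z i)) ∧ Nonempty (K ≃g disjUnion Z)
  iso := by
    rintro n m G H ⟨e⟩ ⟨r, k, Z, hZ, ⟨f⟩⟩
    exact ⟨r, k, Z, hZ, ⟨e.symm.trans f⟩⟩

/-- a `t`-global `C`-cover of `H`: a homomorphism from the disjoint union of `t` graphs of `C` to
`H` such that every edge of `H` is the image of some edge -/
structure Cover (C : GraphClass) {N : ℕ} (H : SimpleGraph (Fin N)) (t : ℕ) where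
  n : Fin t → ℕ
  G : (i : Fin t) → SimpleGraph (Fin (n i))
  mem : ∀ i, C.mem (n i) (G i)
  φ : (i : Fin t) → Fin (n i) → Fin N
  hom : ∀ i x y, (G i).Adj x y → H.Adj (φ i x) (φ i y)
  surj : ∀ u v, H.Adj u v → ∃ i x y, (G i).Adj x y ∧ φ i x = u ∧ φ i y = v

/-- injective on each guest -/
def Cover.Injective {C : GraphClass} {N : ℕ} {H : SimpleGraph (Fin N)} {t : ℕ}
    (c : Cover C H t) : Prop := ∀ i, Function.Injective (c.φ i)

/-- `s`-local: every vertex of the host has at most `s` preimages in the disjoint union -/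
def Cover.Local {C : GraphClass} {N : ℕ} {H : SimpleGraph (Fin N)} {t : ℕ}
    (c : Cover C H t) (s : ℕ) : Prop :=
  ∀ v : Fin N, Set.ncard {p : (i : Fin t) × Fin (c.n i) | c.φ p.1 p.2 = v} ≤ s

/-- the union covering number `c_u` -/
noncomputable def cu (C : GraphClass) {N : ℕ} (H : SimpleGraph (Fin N)) : ℕ∞ :=
  sInf {x : ℕ∞ | ∃ t : ℕ, 0 < t ∧ x = t ∧ ∃ c : Cover C.union H t, c.Injective}

/-- the local covering number `c_l` -/
noncomputable def cl (C : GraphClass) {N : ℕ} (H : SimpleGraph (Fin N)) : ℕ∞ :=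
  sInf {x : ℕ∞ | ∃ s : ℕ, x = s ∧ ∃ t : ℕ, 0 < t ∧ ∃ c : Cover C H t, c.Injective ∧ c.Local s}

/-- the union covering number of a class of hosts -/
noncomputable def cuClass (C 𝓗 : GraphClass) : ℕ∞ :=
  ⨆ (N : ℕ) (H : SimpleGraph (Fin N)) (_ : 𝓗.mem N H), cu C H

/-- the local covering number of a class of hosts -/
noncomputable def clClass (C 𝓗 : GraphClass) : ℕ∞ :=
  ⨆ (N : ℕ) (H : SimpleGraph (Fin N)) (_ : 𝓗.mem N H), cl C H

end Pool.Agent.H548.LU
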